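import Pool.Agent.U190.AN.Cls
import Pool.Agent.U190.GS.Top

/-!
# The standard conjectures for varieties generated by products of varieties without isotropic
invariant subspaces
-/

open CategoryTheory AlgebraicGeometry

universe u₁ v₁ u v w w'

namespace Pool.Agent.U190.AN

open Pool.Agent.H914 Pool.Agent.H914.VarClass Pool.Agent.H914.VarClass.Obj
  Pool.Agent.H914.WeilCohomology Pool.Agent.H281R3.HT Pool.Agent.R908 Pool.Agent.H447

variable {k : Type u} [Field k] {𝒱 : VarClass k} {ops : CycleOps 𝒱}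
  {W : WeilCohomology.{u, v} ops} {X Y V Z : 𝒱.Obj} {𝒢 : Set (Symmetry W)} {P 𝒴 R : Set 𝒱.Obj}

/-- The Künneth projectors of a product. -/
theorem kunneth_prod (hX : ∀ i, proj (W.isInternal X) i ∈ KOp W X X 0)
    (hY : ∀ i, proj (W.isInternal Y) i ∈ KOp W Y Y 0) (i : ℕ) :
    proj (W.isInternal (X.prod Y)) i ∈ KOp W (X.prod Y) (X.prod Y) 0 := by
  have h1 : proj (W.isInternal (X.prod Y)) i = ∑ p ∈ Finset.range (i + 1),
      extHom W (proj (W.isInternal X) p) (proj (W.isInternal Y) (i - p)) := by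
    apply ext_kunneth_lin
    intro a b
    rw [LinearMap.sum_apply]
    simp only [extHom_tmul]
    refine gr_induction (W.isInternal X) (p := fun a =>
      proj (W.isInternal (X.prod Y)) i (W.map (fst X Y) a * W.map (snd X Y) b) =
        ∑ p ∈ Finset.range (i + 1), W.map (fst X Y) (proj (W.isInternal X) p a) *
          W.map (snd X Y) (proj (W.isInternal Y) (i - p) b)) ?_ ?_ a
    swap
    · intro a a' ha ha'
      rw [map_add, add_mul, map_add, ha, ha', ← Finset.sum_add_distrib]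
      apply Finset.sum_congr rfl
      intro p _
      rw [map_add, map_add, add_mul]
    intro s a ha
    refine gr_induction (W.isInternal Y) (p := fun b =>
      proj (W.isInternal (X.prod Y)) i (W.map (fst X Y) a * W.map (snd X Y) b) =
        ∑ p ∈ Finset.range (i + 1), W.map (fst X Y) (proj (W.isInternal X) p a) *
          W.map (snd X Y) (proj (W.isInternal Y) (i - p) b)) ?_ ?_ b
    swap
    · intro b b' hb hb'
      rw [map_add, mul_add, map_add, hb, hb', ← Finset.sum_add_distrib]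
      apply Finset.sum_congr rfl
      intro p _
      rw [map_add, map_add, mul_add]
    intro t b hb
    have h2 : W.map (fst X Y) a * W.map (snd X Y) b ∈ W.gr (X.prod Y) (s + t) :=
      W.mul_mem (W.map_mem _ ha) (W.map_mem _ hb)
    by_cases hst : s + t = i
    · subst hst
      rw [proj_same _ h2, Finset.sum_eq_single s]
      · rw [proj_same _ ha, Nat.add_sub_cancel_left, proj_same _ hb]
      · intro p _ hp
        rw [proj_ne _ ha (Ne.symm hp), map_zero, zero_mul]
      · intro h0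
        exact absurd (Finset.mem_range.2 (by omega)) h0
    · rw [proj_ne _ h2 hst]
      refine (Finset.sum_eq_zero (fun p hp => ?_)).symm
      have hp' := Finset.mem_range.1 hp
      by_cases hps : s = p
      · subst hps
        rw [proj_ne _ hb (by omega), map_zero, mul_zero]
      · rw [proj_ne _ ha hps, map_zero, zero_mul]
  rw [h1]
  exact Submodule.sum_mem _ (fun p _ => KOp.cast (KOp.extHom (hX p) (hY (i - p))) (add_zero 0))

theorem kunneth_products (h : ∀ X ∈ R, ∀ i, proj (W.isInternal X) i ∈ KOp W X X 0)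
    (hZ : IsProductOf R Z) : ∀ i, proj (W.isInternal Z) i ∈ KOp W Z Z 0 := by
  induction hZ with
  | base hX => exact h _ hX
  | prod _ _ h1 h2 => exact kunneth_prod h1 h2

/-- **Conjecture D for all products.** -/
theorem homEqNum_products (hP : ∀ X ∈ P, IsAnisotropicType 𝒢 X)
    (h𝒴 : ∀ Y, IsProductOf 𝒴 Y → HomEqNum W Y) (hZ : IsProductOf (P ∪ 𝒴) Z) : HomEqNum W Z := by
  set P₁ : Set 𝒱.Obj := {X ∈ P | SignAlgebraic W X ∧ Anisotropic 𝒢 X} with hP₁
  set P₂ : Set 𝒱.Obj := {X ∈ P | ∃ m D, IsAbelianType 𝒢 X m D ∧ AnisotropicOne 𝒢 X} with hP₂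
  have h1 : ∀ Z, IsProductOf (P₁ ∪ 𝒴) Z → HomEqNum W Z := fun Z hZ =>
    homEqNum_of_anisotropic (𝒢 := 𝒢) (fun X hX => homEqNum_of_aniso hX.2.2)
      (fun X hX => hX.2.1) (fun X hX => hX.2.2) h𝒴 hZ
  refine homEqNum_of_anisotropicOne (𝒢 := 𝒢) (P := P₂) (𝒴 := P₁ ∪ 𝒴) ?_ ?_ h1
    (isProductOf_mono ?_ hZ)
  · rintro A ⟨-, m, D, h, -⟩
    exact ⟨m, D, h⟩
  · rintro A ⟨-, m, D, -, h⟩
    exact h
  · rintro X (hX | hX)
    · rcases hP X hX with h | h
      · exact Or.inr (Or.inl ⟨hX, h⟩)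
      · exact Or.inl ⟨hX, h⟩
    · exact Or.inr (Or.inr hX)

lemma IsPrimitiveType.type (h : IsPrimitiveType 𝒢 X) : IsAnisotropicType 𝒢 X :=
  Or.inl ⟨sign_of_kunneth (kunneth_of_mid (homEqNum_of_aniso h.aniso) h.mid), h.aniso⟩

lemma IsSimpleAbelianType.type (h : IsSimpleAbelianType 𝒢 X) : IsAnisotropicType 𝒢 X :=
  Or.inr h.aniso

lemma IsPrimitiveType.kunneth (h : IsPrimitiveType 𝒢 X) (i : ℕ) :
    proj (W.isInternal X) i ∈ KOp W X X 0 :=
  kunneth_of_mid (homEqNum_of_aniso h.aniso) h.mid i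

lemma IsSimpleAbelianType.kunneth (h : IsSimpleAbelianType 𝒢 X) (i : ℕ) :
    proj (W.isInternal X) i ∈ KOp W X X 0 := by
  obtain ⟨m, D, hA, -⟩ := h
  exact kunneth_of_abelian hA.abelianLike i

lemma GeneratedIn.isGeneratedBy {i : ℕ} (h : GeneratedIn W R V i) :
    Pool.Agent.Y106.Gen.IsGeneratedBy W R V i := by
  refine h.trans (Submodule.span_mono ?_)
  rintro x ⟨Z, hZ, p, z, hz, a, rfl⟩
  exact ⟨Z, hZ, p, _, Submodule.subset_span ⟨p, rfl, z, hz, rfl⟩, a, rfl⟩

lemma IsBlock.type (h : IsBlock 𝒢 X) : IsAnisotropicType 𝒢 X := by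
  rcases h with h | h | h
  · exact h.type
  · exact h.type
  · exact h

lemma IsKunnethBlock.type (h : IsKunnethBlock 𝒢 X) : IsAnisotropicType 𝒢 X := by
  rcases h with h | h | ⟨-, h⟩
  · exact h.type
  · exact h.type
  · exact h

lemma IsKunnethBlock.kunneth (h : IsKunnethBlock 𝒢 X) (i : ℕ) :
    proj (W.isInternal X) i ∈ KOp W X X 0 := by
  rcases h with h | h | ⟨h, -⟩
  · exact h.kunneth i
  · exact h.kunneth i
  · exact h.kop i

lemma isStandardK (hP : ∀ X ∈ P, IsKunnethBlock 𝒢 X) (hK : ∀ Y ∈ 𝒴, KunnethLinear W Y)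
    (h𝒴 : ∀ Y, IsProductOf 𝒴 Y → HomEqNum W Y) : IsStandardK W (products P 𝒴) where
  kunneth := fun _ hZ => kunneth_products (R := P ∪ 𝒴) (by
    rintro X (hX | hX) i
    · exact (hP X hX).kunneth i
    · exact (hK X hX).kop i) hZ
  homEqNum := fun _ hZ _ hZ' => homEqNum_products (fun X hX => (hP X hX).type) h𝒴
    (IsProductOf.prod hZ hZ')

lemma injectsOn_of_hl {D : V.Cycles} (hHL : HardLefschetz W V D) {i : ℕ} (hi : i ≤ V.dim) :
    Pool.Agent.Y106.One.InjectsOn (W.gr V i) (Pool.Agent.W537.lefPow W V D (V.dim - i)) := by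
  intro a ha h0
  apply (hHL i hi).1 a ha
  rw [LinearMap.pow_mulLeft]
  exact h0

/-- **Conjecture B for varieties whose cohomology below the middle degree is generated.** -/
theorem lefschetzB_of_generated (hS : IsStandardK W R) {D : V.Cycles} (hD : V.IsCyc 1 D)
    (hHL : HardLefschetz W V D) (hgen : ∀ i < V.dim, GeneratedIn W R V i) : LefschetzB W V D := by
  apply lefschetzB_of_inj hD hHL
  intro c hc
  by_cases hc0 : c = 0
  · subst hc0
    exact ⟨LinearMap.id, KOp.cast (KOp.id V) (by simp), fun a _ h => h⟩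
  obtain ⟨γ, hγ, hinj⟩ := injectsLefschetz hS (i := V.dim - c) (by omega)
    (hgen (V.dim - c) (by omega)).isGeneratedBy hD (injectsOn_of_hl hHL (by omega))
  refine ⟨W.corr γ, mem_KOp_iff.2 ⟨γ, ?_, rfl⟩, ?_⟩
  · rwa [show (V.dim : ℤ) + -(c : ℤ) = ((V.dim - c : ℕ) : ℤ) by omega]
  · intro a ha h0
    obtain ⟨b, hb, hb'⟩ := (hHL (V.dim - c) (by omega)).2 a
      (by rw [show 2 * V.dim - (V.dim - c) = V.dim + c by omega]; exact ha)
    have h1 : Pool.Agent.W537.lefPow W V D (V.dim - (V.dim - c)) b = a := by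
      rw [← hb', Pool.Agent.W537.lefPow, LinearMap.pow_mulLeft]
    have h2 := hinj b hb (by
      rw [Pool.Agent.Y106.One.corrLef, LinearMap.comp_apply, h1]
      exact h0)
    rw [← hb', h2, map_zero]

/-- The adjoint of a correspondence kills transcendental algebraic classes if D holds. -/
lemma adj_kill (hZ : HomEqNum W Z) {d : ℤ} {φ : W.H Z →ₗ[W.K] W.H V} (hφ : φ ∈ KOp W Z V d)
    {q : ℕ} {z : V.Cycles} (hz : V.IsCyc q z)
    (hnum : ∀ w, V.IsCyc (V.dim - q) w → V.V.degCycle (ops.mul z w) = 0) (hq : q ≤ V.dim)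
    (a : W.H Z) : W.tr V (φ a * W.cl V z) = 0 := by
  obtain ⟨ψ, hψ, hadj⟩ := KOp.exists_adjoint hφ
  rw [hadj]
  have h0 : ∀ (j : ℤ) u, u ∈ spanCycles W V j → W.tr V (u * W.cl V z) = 0 := by
    intro j u hu
    induction hu using Submodule.span_induction with
    | mem g hg =>
      obtain ⟨p, hp, w, hw, rfl⟩ := hg
      rw [W.even_comm (W.cl_mem hw)]
      by_cases hpq : p = V.dim - q
      · subst hpq
        have h3 := ops.mul_mem hz hw
        rw [Nat.add_sub_cancel' hq] at h3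
        rw [← W.cl_mul, W.tr_cl, hnum w hw, Rat.cast_zero]
        exact h3
      · exact W.tr_eq_zero (W.mul_mem (W.cl_mem hz) (W.cl_mem hw)) (by omega)
    | zero => rw [zero_mul, map_zero]
    | add x y _ _ hx hy => rw [add_mul, map_add, hx, hy, add_zero]
    | smul c x _ hx => rw [smul_mul_assoc, map_smul, hx, smul_zero]
  have h1 : ψ (W.cl V z) = 0 := by
    have h2 := KOp.map_span hψ (x := W.cl V z) (j := q)
      (Submodule.subset_span ⟨q, rfl, z, hz, rfl⟩)
    set e : ℤ := (q : ℤ) + (d + Z.dim - V.dim) with he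
    by_cases hneg : e < 0
    · have h3 : spanCycles W Z e = ⊥ := by
        rw [spanCycles, Submodule.span_eq_bot]
        rintro c ⟨p, hp, -⟩
        omega
      rw [h3] at h2
      exact (Submodule.mem_bot _).1 h2
    obtain ⟨r, hr⟩ : ∃ r : ℕ, (r : ℤ) = e := ⟨e.toNat, by omega⟩
    rw [← hr] at h2
    by_cases hbig : Z.dim < r
    · have h3 : ψ (W.cl V z) ∈ W.gr Z (2 * r) := Pool.Agent.H447.span_gr h2
      rw [W.gr_eq_bot _ _ (by omega)] at h3
      exact (Submodule.mem_bot _).1 h3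
    · have hin : HomEqNumIn W Z r := hZ r (by omega)
      refine hin.span (p := Z.dim - r) (by omega) h2 ?_
      intro w hw
      rw [← hadj]
      exact h0 _ _ (KOp.map_span hφ (Submodule.subset_span ⟨Z.dim - r, rfl, w, hw, rfl⟩))
  rw [h1, mul_zero, map_zero]

/-- **Conjecture D in codimension `q`** if the cohomology is generated in the complementary degree. -/
theorem homEqNumIn_of_generated (hR : ∀ Z ∈ R, HomEqNum W Z) {q : ℕ} (hq : q ≤ V.dim)
    (hgen : GeneratedIn W R V (2 * (V.dim - q))) : HomEqNumIn W V q := by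
  intro z hz hnum
  apply nondeg_right
  intro b
  refine gr_induction (W.isInternal V) (p := fun b => W.tr V (b * W.cl V z) = 0) ?_ ?_ b
  swap
  · intro b b' hb hb'
    rw [add_mul, map_add, hb, hb', add_zero]
  intro i b hb
  by_cases hi : i = 2 * (V.dim - q)
  · subst hi
    have h1 := hgen hb
    refine Submodule.span_induction (p := fun b _ => W.tr V (b * W.cl V z) = 0) ?_ ?_ ?_ ?_ h1
    · rintro x ⟨Z, hZ, p, y, hy, a, rfl⟩
      exact adj_kill (hR Z hZ) (KOp.gen (W := W) (d := (p : ℤ) - Z.dim) (p := p) (by ring) hy)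
        hz hnum hq a
    · rw [zero_mul, map_zero]
    · intro x y _ _ hx hy
      rw [add_mul, map_add, hx, hy, add_zero]
    · intro c x _ hx
      rw [smul_mul_assoc, map_smul, hx, smul_zero]
  · exact W.tr_eq_zero (W.mul_mem hb (W.cl_mem hz)) (by omega)

/-- **Conjecture D in codimension `q`** if the cohomology is generated in degree `2 q`, for
`2 q ≤ dim V`, and hard Lefschetz holds. -/
theorem homEqNumIn_of_generated_low (hR : ∀ Z ∈ R, HomEqNum W Z) {D : V.Cycles}
    (hD : V.IsCyc 1 D) (hHL : HardLefschetz W V D) {q : ℕ} (hq : 2 * q ≤ V.dim)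
    (hgen : GeneratedIn W R V (2 * q)) : HomEqNumIn W V q := by
  intro z hz hnum
  apply nondeg_right
  intro b
  refine gr_induction (W.isInternal V) (p := fun b => W.tr V (b * W.cl V z) = 0) ?_ ?_ b
  swap
  · intro b b' hb hb'
    rw [add_mul, map_add, hb, hb', add_zero]
  intro i b hb
  by_cases hi : i = 2 * (V.dim - q)
  · subst hi
    obtain ⟨b', hb', rfl⟩ := (hHL (2 * q) hq).2 b
      (by rwa [show 2 * V.dim - 2 * q = 2 * (V.dim - q) by omega])
    have h1 := hgen hb'
    refine Submodule.span_induction (p := fun b _ => W.tr V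
      (((LinearMap.mulLeft W.K (W.cl V D)) ^ (V.dim - 2 * q)) b * W.cl V z) = 0) ?_ ?_ ?_ ?_ h1
    · rintro x ⟨Z, hZ, p, y, hy, a, rfl⟩
      have h2 := KOp.comp (lefP_mem (W := W) hD (V.dim - 2 * q))
        (KOp.gen (W := W) (d := (p : ℤ) - Z.dim) (p := p) (by ring) hy)
      exact adj_kill (hR Z hZ) h2 hz hnum (by omega) a
    · rw [map_zero, zero_mul, map_zero]
    · intro x y _ _ hx hy
      rw [map_add, add_mul, map_add, hx, hy, add_zero]
    · intro c x _ hx
      rw [map_smul, smul_mul_assoc, map_smul, hx, smul_zero]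
  · exact W.tr_eq_zero (W.mul_mem hb (W.cl_mem hz)) (by omega)

/-- **Conjecture D.** -/
theorem homEqNum_of_generated (hR : ∀ Z ∈ R, HomEqNum W Z)
    (hgen : ∀ j ≤ V.dim, GeneratedIn W R V (2 * j)) : HomEqNum W V :=
  fun j hj => homEqNumIn_of_generated hR hj (hgen (V.dim - j) (by omega))

/-- **Conjecture D** with hard Lefschetz. -/
theorem homEqNum_of_generated_low (hR : ∀ Z ∈ R, HomEqNum W Z) {D : V.Cycles}
    (hD : V.IsCyc 1 D) (hHL : HardLefschetz W V D)
    (hgen : ∀ j, 2 * j ≤ V.dim → GeneratedIn W R V (2 * j)) : HomEqNum W V := by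
  intro j hj
  by_cases h : 2 * j ≤ V.dim
  · exact homEqNumIn_of_generated_low hR hD hHL h (hgen j h)
  · exact homEqNumIn_of_generated hR hj (hgen (V.dim - j) (by omega))

/-- The identity generates. -/
lemma generated_self (hV : V ∈ R) (i : ℕ) : GeneratedIn W R V i := by
  intro x _
  obtain ⟨γ, hγ, hγ'⟩ := mem_KOp_iff.1 (KOp.id (W := W) V)
  rw [add_zero] at hγ
  have hx : x = W.corr γ x := by rw [hγ']; rfl
  rw [hx]
  clear hγ' hx
  induction hγ using Submodule.span_induction with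
  | mem g hg =>
    obtain ⟨p, hp, z, hz, rfl⟩ := hg
    exact Submodule.subset_span ⟨V, hV, p, z, hz, x, rfl⟩
  | zero => rw [corr_zero]; exact Submodule.zero_mem _
  | add a b _ _ ha hb => rw [corr_add]; exact Submodule.add_mem _ ha hb
  | smul c a _ ha => rw [corr_smul]; exact Submodule.smul_mem _ _ ha

/-- **Conjecture D: the criterion.** -/
theorem homEqNum_iff (𝒢 : Set (Symmetry W)) (hP : ∀ X ∈ P, IsBlock 𝒢 X) :
    (∀ Y, IsProductOf 𝒴 Y → HomEqNum W Y) ↔
      ∀ V, ((∀ j ≤ V.dim, GeneratedIn W (products P 𝒴) V (2 * j)) ∨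
        ∃ D, V.IsCyc 1 D ∧ HardLefschetz W V D ∧
          ∀ j, 2 * j ≤ V.dim → GeneratedIn W (products P 𝒴) V (2 * j)) → HomEqNum W V := by
  constructor
  · intro h𝒴
    have hR : ∀ Z ∈ products P 𝒴, HomEqNum W Z := fun Z hZ =>
      homEqNum_products (fun X hX => (hP X hX).type) h𝒴 hZ
    rintro V (h | ⟨D, hD, hHL, h⟩)
    · exact homEqNum_of_generated hR h
    · exact homEqNum_of_generated_low hR hD hHL h
  · intro h Y hY
    exact h Y (Or.inl (fun j _ => generated_self
      (isProductOf_mono Set.subset_union_right hY : Y ∈ products P 𝒴) (2 * j)))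

end Pool.Agent.U190.AN
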