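import Mathlib

/-!
# Operators with simple spectrum and self-conjugate eigenvalues: definition
-/

open Polynomial Module

namespace Pool.Agent.U190.AN

/-- The minimal polynomial of `s` is squarefree and its degree is the dimension of the space (that
is, the characteristic polynomial is squarefree), and every eigenvalue `α` of `s` in an algebraic
closure of `K` is conjugate over `K` to `c / α`. -/
def SimpleSelfDual {K : Type*} [Field K] {V : Type*} [AddCommGroup V] [Module K V]
    (s : Module.End K V) (c : K) : Prop :=
  Squarefree (minpoly K s) ∧ (minpoly K s).natDegree = finrank K V ∧
    ∀ α : AlgebraicClosure K, aeval α (minpoly K s) = 0 →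
      aeval (algebraMap K (AlgebraicClosure K) c / α) (minpoly K α) = 0

end Pool.Agent.U190.AN
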