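import Pool.Agent.U190.AN.Gen

/-!
# Named classes of varieties without isotropic invariant subspaces
-/

open CategoryTheory AlgebraicGeometry

universe u v w w'

namespace Pool.Agent.U190.AN

open Pool.Agent.H914 Pool.Agent.H914.VarClass Pool.Agent.H914.VarClass.Obj
  Pool.Agent.H914.WeilCohomology Pool.Agent.H281R3.HT Pool.Agent.R908

variable {k : Type u} [Field k] {𝒱 : VarClass k} {ops : CycleOps 𝒱}
  {W : WeilCohomology.{u, v} ops} {X : 𝒱.Obj} {𝒢 : Set (Symmetry W)}

/-- A non-zero value of a combination of correspondences gives one for a correspondence. -/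
lemma exists_corr {δ : ℤ} {φ : W.H X →ₗ[W.K] W.H X} (hφ : φ ∈ KOp W X X δ) {x y : W.H X}
    (h : W.tr X (x * φ y) ≠ 0) :
    ∃ θ ∈ ⋃ p, correspondences W X p, W.tr X (x * θ y) ≠ 0 := by
  by_contra hcon
  push Not at hcon
  obtain ⟨γ, hγ, rfl⟩ := mem_KOp_iff.1 hφ
  apply h
  clear h hφ
  induction hγ using Submodule.span_induction with
  | mem g hg =>
    obtain ⟨p, hp, z, hz, rfl⟩ := hg
    rw [corr_apply]
    exact hcon _ (Set.mem_iUnion.2 ⟨p, z, hz, rfl⟩)
  | zero => rw [corr_zero, LinearMap.zero_apply, mul_zero, map_zero]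
  | add a b _ _ ha hb => rw [corr_add, LinearMap.add_apply, mul_add, map_add, ha, hb, add_zero]
  | smul c a _ ha => rw [corr_smul, LinearMap.smul_apply, mul_smul_comm, map_smul, ha, smul_zero]

lemma mem_orth {A₀ : Submodule W.K (W.H X)} {x : W.H X} :
    x ∈ orthCompl (W.tr X) (A₀ : Set (W.H X)) ↔ ∀ a ∈ A₀, W.tr X (x * a) = 0 := by
  simp only [orthCompl, Submodule.mem_iInf]
  constructor
  · intro h a ha
    exact LinearMap.mem_ker.1 (h a ha)
  · intro h a ha
    exact LinearMap.mem_ker.2 (h a ha)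

lemma trans_le {A₀ : Submodule W.K (W.H X)} (hA : IsPrimitiveSplitting W X A₀) :
    transcendental W X ≤ orthCompl (W.tr X) (A₀ : Set (W.H X)) := by
  intro x hx
  rw [mem_orth]
  intro a ha
  exact tr_span hx (hA.alg ha)

lemma algSpan_comm {a : W.H X} (ha : a ∈ algSpan W X) (b : W.H X) : a * b = b * a := by
  refine algSpan_induction (p := fun a => a * b = b * a) ?_ ?_ ?_ ha
  · intro q g hg
    induction hg using Submodule.span_induction with
    | mem g hg =>
      obtain ⟨p, hp, z, hz, rfl⟩ := hg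
      exact alg_even_comm ⟨z, hz, rfl⟩ b
    | zero => rw [zero_mul, mul_zero]
    | add a c _ _ ha hc => rw [add_mul, mul_add, ha, hc]
    | smul c a _ ha => rw [smul_mul_assoc, mul_smul_comm, ha]
  · rw [zero_mul, mul_zero]
  · intro a c ha hc
    rw [add_mul, mul_add, ha, hc]

/-- The pairing on the orthogonal complement is not degenerate. -/
lemma orth_nondeg {A₀ : Submodule W.K (W.H X)} (hA : IsPrimitiveSplitting W X A₀) {x : W.H X}
    (hx : x ∈ orthCompl (W.tr X) (A₀ : Set (W.H X)))
    (h : ∀ y ∈ orthCompl (W.tr X) (A₀ : Set (W.H X)), W.tr X (x * y) = 0) : x = 0 := by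
  apply W.nondeg
  intro b
  have hb : b ∈ A₀ ⊔ orthCompl (W.tr X) (A₀ : Set (W.H X)) := by rw [hA.top]; trivial
  obtain ⟨a, ha, t, ht, rfl⟩ := Submodule.mem_sup.1 hb
  rw [mul_add, map_add, mem_orth.1 hx a ha, h t ht, add_zero]

/-- A space spanned by conjugate vanishing cycles is irreducible. -/
lemma irreducible_of_vanishing {A₀ : Submodule W.K (W.H X)} (hA : IsPrimitiveSplitting W X A₀)
    (h : HasVanishingCycles 𝒢 X (orthCompl (W.tr X) (A₀ : Set (W.H X)))) :
    IsIrreducible 𝒢 X (orthCompl (W.tr X) (A₀ : Set (W.H X))) := by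
  obtain ⟨Δ, hΔ, hconj, htr⟩ := h
  intro U hU hst
  by_cases hne : U = ⊥
  · exact Or.inl hne
  right
  obtain ⟨x, hx, hx0⟩ := (Submodule.ne_bot_iff _).1 hne
  -- some vanishing cycle is not orthogonal to `x`
  obtain ⟨δ, hδ, hxδ⟩ : ∃ δ ∈ Δ, W.tr X (x * δ) ≠ 0 := by
    by_contra hcon
    push Not at hcon
    apply hx0
    refine orth_nondeg hA (hU hx) (fun y hy => ?_)
    rw [← hΔ] at hy
    refine Submodule.span_induction (p := fun y _ => W.tr X (x * y) = 0) ?_ ?_ ?_ ?_ hy
    · exact fun y hy => hcon y hy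
    · rw [mul_zero, map_zero]
    · intro a b _ _ ha hb
      rw [mul_add, map_add, ha, hb, add_zero]
    · intro c a _ ha
      rw [mul_smul_comm, map_smul, ha, smul_zero]
  have hδU : δ ∈ U := by
    obtain ⟨S, hS, c, hc, hSx⟩ := htr δ hδ
    have h1 := hst _ (Or.inr ⟨S, hS, rfl⟩) x hx
    rw [hSx x (hU hx)] at h1
    have h2 := Submodule.sub_mem _ h1 hx
    rw [add_sub_cancel_left] at h2
    exact (Submodule.smul_mem_iff _ (mul_ne_zero hc hxδ)).1 h2
  refine le_antisymm hU ?_
  rw [← hΔ, Submodule.span_le]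
  intro δ' hδ'
  obtain ⟨S, hS, h1 | h1⟩ := hconj δ hδ δ' hδ'
  · rw [← h1]
    exact hst _ (Or.inr ⟨S, hS, rfl⟩) δ hδU
  · have h2 := hst _ (Or.inr ⟨S, hS, rfl⟩) δ hδU
    rw [h1] at h2
    exact (Submodule.neg_mem_iff _).1 h2

/-- **Varieties of primitive type are anisotropic.** -/
theorem IsPrimitiveType.aniso (h : IsPrimitiveType 𝒢 X) : Anisotropic 𝒢 X := by
  obtain ⟨A₀, hA, h⟩ := h
  replace h : IsIrreducible 𝒢 X (orthCompl (W.tr X) A₀) ∨
      ∃ S ∈ 𝒢, HasSelfDualSpectrum S X (orthCompl (W.tr X) A₀) (S.c X) := by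
    rcases h with h | h | h
    · exact Or.inl h
    · exact Or.inl (irreducible_of_vanishing hA h)
    · exact Or.inr h
  intro U hU hne hst
  have hUP : U ≤ orthCompl (W.tr X) (A₀ : Set (W.H X)) := hU.trans (trans_le hA)
  have key : ∃ x ∈ U, ∃ y ∈ U, W.tr X (x * y) ≠ 0 := by
    rcases h with h | ⟨S, hS, hSt, hsp⟩
    · rcases h U hUP hst with h0 | h0
      · exact absurd h0 hne
      obtain ⟨x, hx, hx0⟩ := (Submodule.ne_bot_iff _).1 hne
      by_contra hcon
      push Not at hcon
      apply hx0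
      refine orth_nondeg hA (hUP hx) (fun y hy => hcon x hx y ?_)
      rw [h0]
      exact hy
    · set P := orthCompl (W.tr X) (A₀ : Set (W.H X)) with hP
      set U' : Submodule W.K P := U.comap P.subtype with hU'
      have hU'0 : U' ≠ ⊥ := by
        obtain ⟨x, hx, hx0⟩ := (Submodule.ne_bot_iff _).1 hne
        refine (Submodule.ne_bot_iff _).2 ⟨⟨x, hUP hx⟩, hx, ?_⟩
        intro h0
        exact hx0 (congrArg Subtype.val h0)
      obtain ⟨x, hx, y, hy, hxy⟩ := exists_pairing hsp (S.sim X).ne_zero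
        (fun x y : P => W.tr X ((x : W.H X) * (y : W.H X)))
        (fun x y z => by rw [Submodule.coe_add, mul_add, map_add])
        (fun x a y => by rw [Submodule.coe_smul, mul_smul_comm, map_smul, smul_eq_mul])
        (fun x y z => by rw [Submodule.coe_add, add_mul, map_add])
        (fun a x y => by rw [Submodule.coe_smul, smul_mul_assoc, map_smul, smul_eq_mul])
        (fun x y => by
          change W.tr X (S.σ X (x : W.H X) * S.σ X (y : W.H X)) = _
          rw [← map_mul, S.tr])
        (fun x hx => by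
          apply Subtype.ext
          exact orth_nondeg hA x.2 (fun y hy => hx ⟨y, hy⟩)) hU'0
        (fun x hx => hst _ (Or.inr ⟨S, hS, rfl⟩) _ hx)
      exact ⟨x, hx, y, hy, hxy⟩
  obtain ⟨x, hx, y, hy, hxy⟩ := key
  obtain ⟨θ, hθ, h1⟩ := exists_corr (KOp.id X) (x := x) (y := y) hxy
  exact ⟨θ, hθ, x, hx, y, hy, h1⟩

lemma IsPrimitiveType.mid (h : IsPrimitiveType 𝒢 X) : transcendental W X ≤ W.gr X X.dim := by
  obtain ⟨A₀, hA, -⟩ := h
  exact (trans_le hA).trans hA.mid

/-- The pairing on the first cohomology of an abelian variety. -/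
lemma one_nondeg {m : X.prod X ⟶ X} {D : X.Cycles} (hA : IsAbelianType 𝒢 X m D) {x : W.H X}
    (hx : x ∈ W.gr X 1) (h : ∀ y ∈ W.gr X 1, W.tr X (x * (W.cl X D) ^ (X.dim - 1) * y) = 0) :
    x = 0 := by
  by_cases hdim : X.dim = 0
  · rw [W.gr_eq_bot X 1 (by omega), Submodule.mem_bot] at hx
    exact hx
  apply W.nondeg
  intro b
  refine gr_induction (W.isInternal X) (p := fun b => W.tr X (x * b) = 0) ?_ ?_ b
  swap
  · intro b b' hb hb'
    rw [mul_add, map_add, hb, hb', add_zero]
  intro i b hb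
  by_cases hi : i = 2 * X.dim - 1
  · subst hi
    obtain ⟨z, hz, hzz⟩ := (hA.lefschetz 1 (by omega)).2 b hb
    have h7 : ((LinearMap.mulLeft W.K (W.cl X D)) ^ (X.dim - 1)) z =
        lefP W X D (X.dim - 1) z := rfl
    rw [h7, lefP_eq] at hzz
    rw [← hzz, ← mul_assoc]
    exact h z hz
  · exact W.tr_eq_zero (W.mul_mem hx hb) (by omega)

/-- **Varieties of simple abelian type are anisotropic.** -/
theorem IsSimpleAbelianType.aniso (h : IsSimpleAbelianType 𝒢 X) :
    ∃ m D, IsAbelianType 𝒢 X m D ∧ AnisotropicOne 𝒢 X := by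
  obtain ⟨m, D, hA, h⟩ := h
  refine ⟨m, D, hA, ?_⟩
  intro U hU hne hst
  have key : ∃ x ∈ U, ∃ y ∈ U, W.tr X (x * (W.cl X D) ^ (X.dim - 1) * y) ≠ 0 := by
    rcases h with h | ⟨S, hS, d, hd, hdD, hSt, hsp⟩
    · rcases h U hU hst with h0 | h0
      · exact absurd h0 hne
      obtain ⟨x, hx, hx0⟩ := (Submodule.ne_bot_iff _).1 hne
      by_contra hcon
      push Not at hcon
      apply hx0
      refine one_nondeg hA (hU hx) (fun y hy => hcon x hx y ?_)
      rw [h0]
      exact hy
    · set U' : Submodule W.K (W.gr X 1) := U.comap (W.gr X 1).subtype with hU'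
      have hU'0 : U' ≠ ⊥ := by
        obtain ⟨x, hx, hx0⟩ := (Submodule.ne_bot_iff _).1 hne
        refine (Submodule.ne_bot_iff _).2 ⟨⟨x, hU hx⟩, hx, ?_⟩
        intro h0
        exact hx0 (congrArg Subtype.val h0)
      obtain ⟨x, hx, y, hy, hxy⟩ := exists_pairing hsp
        (div_ne_zero (S.sim X).ne_zero (pow_ne_zero _ hd))
        (fun x y : W.gr X 1 => W.tr X ((x : W.H X) * (W.cl X D) ^ (X.dim - 1) * (y : W.H X)))
        (fun x y z => by rw [Submodule.coe_add, mul_add, map_add])
        (fun x a y => by rw [Submodule.coe_smul, mul_smul_comm, map_smul, smul_eq_mul])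
        (fun x y z => by rw [Submodule.coe_add, add_mul, add_mul, map_add])
        (fun a x y => by
          rw [Submodule.coe_smul, smul_mul_assoc, smul_mul_assoc, map_smul, smul_eq_mul])
        (fun x y => by
          change W.tr X (S.σ X (x : W.H X) * (W.cl X D) ^ (X.dim - 1) * S.σ X (y : W.H X)) = _
          have h1 : (W.cl X D) ^ (X.dim - 1) =
              (d ^ (X.dim - 1))⁻¹ • S.σ X ((W.cl X D) ^ (X.dim - 1)) := by
            rw [map_pow, hdD, _root_.smul_pow, smul_smul,
              inv_mul_cancel₀ (pow_ne_zero _ hd), one_smul]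
          conv_lhs => rw [h1]
          rw [mul_smul_comm, smul_mul_assoc, map_smul, ← map_mul, ← map_mul, S.tr, smul_eq_mul]
          ring)
        (fun x hx => by
          apply Subtype.ext
          exact one_nondeg hA x.2 (fun y hy => hx ⟨y, hy⟩)) hU'0
        (fun x hx => hst _ (Or.inr ⟨S, hS, rfl⟩) _ hx)
      exact ⟨x, hx, y, hy, hxy⟩
  obtain ⟨x, hx, y, hy, hxy⟩ := key
  have h1 : W.tr X (x * lefP W X D (X.dim - 1) y) ≠ 0 := by
    rw [lefP_eq, ← mul_assoc]
    exact hxy
  obtain ⟨θ, hθ, h2⟩ := exists_corr (lefP_mem hA.divisor _) (x := x) (y := y) h1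
  exact ⟨θ, hθ, x, hx, y, hy, h2⟩

/-- The sign is algebraic if the Künneth projectors are. -/
lemma sign_of_kunneth (h : ∀ i, proj (W.isInternal X) i ∈ KOp W X X 0) : SignAlgebraic W X := by
  have h1 : ∑ i ∈ Finset.range (2 * X.dim + 1), ((-1 : W.K) ^ i) • proj (W.isInternal X) i ∈
      KOp W X X 0 := Submodule.sum_mem _ (fun i _ => Submodule.smul_mem _ _ (h i))
  obtain ⟨γ, hγ, he⟩ := mem_KOp_iff.1 h1
  rw [add_zero] at hγ
  refine ⟨γ, hγ, fun i a ha _ => ?_⟩
  rw [he, LinearMap.sum_apply]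
  by_cases hi : i ≤ 2 * X.dim
  · rw [Finset.sum_eq_single i]
    · rw [LinearMap.smul_apply, proj_same _ ha]
    · intro j _ hj
      rw [LinearMap.smul_apply, proj_ne _ ha (Ne.symm hj), smul_zero]
    · intro h0
      exact absurd (Finset.mem_range.2 (by omega)) h0
  · rw [W.gr_eq_bot X i (by omega), Submodule.mem_bot] at ha
    rw [ha, smul_zero]
    exact Finset.sum_eq_zero (fun j _ => map_zero _)

/-- The Künneth projectors of a variety with conjecture D and transcendental cohomology in the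
middle degree. -/
theorem kunneth_of_mid (hD : HomEqNum W X) (hmid : transcendental W X ≤ W.gr X X.dim) (i : ℕ) :
    proj (W.isInternal X) i ∈ KOp W X X 0 := by
  classical
  obtain ⟨s⟩ := exists_tSplit hD
  choose n c c' l l' hc hc' he using s.eA_alg
  have hproj : proj (W.isInternal X) i =
      ∑ j ∈ Finset.univ.filter (fun j => i + 2 * l j = 2 * X.dim), s.eA j +
        (if i = X.dim then s.eT else 0) := by
    apply gr_ext (W.isInternal X)
    intro m a ha
    -- `eA j` vanishes outside of the degree `2 dim - 2 l j`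
    have h1 : ∀ j, m + 2 * l j ≠ 2 * X.dim → s.eA j a = 0 := by
      intro j hj
      rw [he]
      apply Finset.sum_eq_zero
      intro t _
      have h2 : W.tr X (c j t * a) = 0 := by
        obtain ⟨z, hz, hz'⟩ := hc j t
        rw [← hz']
        exact W.tr_eq_zero (W.mul_mem (W.cl_mem hz) ha) (by omega)
      rw [h2, zero_smul]
    have h2 : m ≠ X.dim → s.eT a = 0 := by
      intro hm
      have h3 := Mot.hom_deg0 s.mem0 ha
      have h4 := hmid (s.mem_T a)
      rw [← proj_same (W.isInternal X) h3, proj_ne _ h4 (Ne.symm hm)]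
    rw [LinearMap.add_apply, LinearMap.sum_apply]
    by_cases hm : m = i
    · subst hm
      rw [proj_same _ ha]
      conv_lhs => rw [s.decomp a]
      congr 1
      · rw [← Finset.sum_filter_add_sum_filter_not Finset.univ (fun j => m + 2 * l j = 2 * X.dim)]
        rw [add_eq_left]
        apply Finset.sum_eq_zero
        intro j hj
        exact h1 j (Finset.mem_filter.1 hj).2
      · split_ifs with h3
        · rfl
        · rw [h2 h3]; rfl
    · rw [proj_ne _ ha hm]
      have h3 : ∑ j ∈ Finset.univ.filter (fun j => i + 2 * l j = 2 * X.dim), s.eA j a = 0 := by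
        apply Finset.sum_eq_zero
        intro j hj
        have := (Finset.mem_filter.1 hj).2
        exact h1 j (by omega)
      rw [h3, zero_add]
      split_ifs with h4
      · rw [h2 (by omega)]
      · rfl
  rw [hproj]
  refine Submodule.add_mem _ (Submodule.sum_mem _ (fun j _ => RatOp.mem (s.eA_mem j))) ?_
  split_ifs
  · exact s.mem0
  · exact Submodule.zero_mem _

/-- The Künneth projectors of a variety of abelian type. -/
theorem kunneth_of_abelian {m : X.prod X ⟶ X} (hA : IsAbelianLike W X m) (i : ℕ) :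
    proj (W.isInternal X) i ∈ KOp W X X 0 := by
  obtain ⟨π, hπ, hK⟩ := exists_projs hA
  have h1 : proj (W.isInternal X) i = π i := by
    apply gr_ext (W.isInternal X)
    intro j a ha
    rw [hπ i j a ha]
    split_ifs with h
    · subst h; rw [proj_same _ ha]
    · rw [proj_ne _ ha (Ne.symm h)]
  rw [h1]
  exact hK i

end Pool.Agent.U190.AN
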