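import Pool.Agent.U190.AN.Main

/-!
# Conjecture A for varieties generated by products
-/

open CategoryTheory AlgebraicGeometry

universe u₁ v₁ u v w w'

namespace Pool.Agent.U190.AN

open Pool.Agent.H914 Pool.Agent.H914.VarClass Pool.Agent.H914.VarClass.Obj
  Pool.Agent.H914.WeilCohomology Pool.Agent.H281R3.HT Pool.Agent.R908 Pool.Agent.H447

variable {k : Type u} [Field k] {𝒱 : VarClass k} {ops : CycleOps 𝒱}
  {W : WeilCohomology.{u, v} ops} {X Y V Z : 𝒱.Obj} {𝒢 : Set (Symmetry W)} {P 𝒴 R : Set 𝒱.Obj}

lemma rep_of_span {q : ℕ} {γ : W.H V} (hγ : γ ∈ spanCycles W V q) :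
    ∃ (m : ℕ) (c : Fin m → W.K) (z : Fin m → V.Cycles), (∀ i, V.IsCyc q (z i)) ∧
      γ = ∑ i, c i • W.cl V (z i) := by
  rw [spanCycles, Submodule.mem_span_set'] at hγ
  obtain ⟨m, c, g, hg⟩ := hγ
  choose p' hp' z hz hz' using fun i => (g i).2
  refine ⟨m, c, z, fun i => ?_, ?_⟩
  · have : p' i = q := by exact_mod_cast hp' i
    rw [← this]; exact hz i
  · rw [← hg]
    exact Finset.sum_congr rfl (fun i _ => by rw [hz' i])

/-- **Conjecture A from conjecture D in the complementary codimension.** -/
theorem lefschetzA_of_homEqNumIn {D : V.Cycles} (hD : V.IsCyc 1 D) (hHL : HardLefschetz W V D)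
    (hnum : ∀ j, 2 * j < V.dim → HomEqNumIn W V (V.dim - j)) : LefschetzA W V D := by
  intro j hj z hz
  by_cases heq : 2 * j = V.dim
  · refine ⟨z, by rwa [show V.dim - j = j by omega] at hz, ?_⟩
    rw [show V.dim - 2 * j = 0 by omega]
    rfl
  have hlt : 2 * j < V.dim := by omega
  have hin := hnum j hlt
  set c := V.dim - 2 * j with hc
  set L : W.H V →ₗ[W.K] W.H V := LinearMap.mulLeft W.K (W.cl V D) ^ c with hL
  set S1 := spanCycles W V (j : ℤ) with hS1
  set S2 := spanCycles W V ((V.dim - j : ℕ) : ℤ) with hS2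
  have hL12 : S1.map L ≤ S2 := by
    rintro _ ⟨x, hx, rfl⟩
    have h1 := KOp.map_span (lefP_mem (W := W) hD c) hx
    rw [show (j : ℤ) + (c : ℤ) = ((V.dim - j : ℕ) : ℤ) by omega] at h1
    exact h1
  have hinjL : ∀ x ∈ S1, L x = 0 → x = 0 := by
    intro x hx h0
    exact (hHL (2 * j) hj).1 x (Pool.Agent.H447.span_gr hx) h0
  have hd1 : Module.finrank W.K (S1.map L) = Module.finrank W.K S1 :=
    Pool.Agent.TH133.PW.finrank_map_injOn _ _ hinjL
  -- the pairing
  have hd2 : Module.finrank W.K S2 ≤ Module.finrank W.K S1 := by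
    set T : S2 →ₗ[W.K] Module.Dual W.K S1 :=
      { toFun := fun γ =>
          { toFun := fun x => W.tr V ((x : W.H V) * (γ : W.H V))
            map_add' := fun x y => by rw [Submodule.coe_add, add_mul, map_add]
            map_smul' := fun a x => by
              rw [Submodule.coe_smul, smul_mul_assoc, map_smul]; rfl }
        map_add' := fun γ γ' => by
          apply LinearMap.ext
          intro x
          change W.tr V ((x : W.H V) * ((γ : W.H V) + (γ' : W.H V))) =
            W.tr V ((x : W.H V) * (γ : W.H V)) + W.tr V ((x : W.H V) * (γ' : W.H V))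
          rw [mul_add, map_add]
        map_smul' := fun a γ => by
          apply LinearMap.ext
          intro x
          change W.tr V ((x : W.H V) * (a • (γ : W.H V))) =
            a • W.tr V ((x : W.H V) * (γ : W.H V))
          rw [mul_smul_comm, map_smul] } with hT
    have hTinj : Function.Injective T := by
      rw [← LinearMap.ker_eq_bot, LinearMap.ker_eq_bot']
      intro γ hγ
      apply Subtype.ext
      refine hin.span (p := j) (by omega) γ.2 ?_
      intro w hw
      have hw' : W.cl V w ∈ S1 := Submodule.subset_span ⟨j, rfl, w, hw, rfl⟩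
      exact congrArg (fun F => F (⟨W.cl V w, hw'⟩ : S1)) hγ
    calc Module.finrank W.K S2 ≤ Module.finrank W.K (Module.Dual W.K S1) :=
          LinearMap.finrank_le_finrank_of_injective hTinj
      _ = Module.finrank W.K S1 := Subspace.dual_finrank_eq
  have hmap : S1.map L = S2 := Submodule.eq_of_le_of_finrank_le hL12 (by rw [hd1]; exact hd2)
  have hz2 : W.cl V z ∈ S1.map L := by
    rw [hmap]
    exact Submodule.subset_span ⟨V.dim - j, rfl, z, hz, rfl⟩
  obtain ⟨x, hx, hxz⟩ := hz2
  obtain ⟨m, a, y, hy, rfl⟩ := rep_of_span hx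
  obtain ⟨ret, hret⟩ := Module.Projective.exists_dual_eq_one ℚ (one_ne_zero (α := W.K))
  set u : V.Cycles := ∑ i, ret (a i) • y i with hu
  have hucyc : V.IsCyc j u := by
    rw [hu]
    refine Finset.sum_induction _ (fun u => V.IsCyc j u) (fun a b => SmVar.IsCyc.add)
      (SmVar.IsCyc.zero _ _) (fun i _ => (hy i).smul _)
  have hclu : W.cl V u = ∑ i, ((ret (a i) : ℚ) : W.K) • W.cl V (y i) := by
    rw [hu, map_sum]
    exact Finset.sum_congr rfl (fun i _ => cl_smul W _ _)
  refine ⟨u, hucyc, ?_⟩
  have hDu : V.IsCyc (V.dim - j) (divPow ops D c u) := by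
    have := divPow_mem (ops := ops) hD c hucyc
    rwa [show j + c = V.dim - j by omega] at this
  have hneg : V.IsCyc (V.dim - j) ((-1 : ℚ) • z) := hz.smul _
  have h0 : W.cl V (divPow ops D c u + (-1 : ℚ) • z) = 0 := by
    apply hin _ (hDu.add hneg)
    intro w hw
    have hsub : V.dim - (V.dim - j) = j := by omega
    rw [hsub] at hw
    have h1 := tr_mul_cl (W := W) (hDu.add hneg) hw (by omega)
    have h2 : W.tr V (W.cl V z * W.cl V w) = ∑ i, a i * W.tr V (L (W.cl V (y i)) * W.cl V w) := by
      rw [← hxz, map_sum, Finset.sum_mul, map_sum]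
      apply Finset.sum_congr rfl
      intro i _
      rw [map_smul, smul_mul_assoc, map_smul, smul_eq_mul]
    have h3 : ∀ i, W.tr V (L (W.cl V (y i)) * W.cl V w) =
        ((V.V.degCycle (ops.mul (divPow ops D c (y i)) w) : ℚ) : W.K) := by
      intro i
      have h4 : V.IsCyc (V.dim - j) (divPow ops D c (y i)) := by
        have := divPow_mem (ops := ops) hD c (hy i)
        rwa [show j + c = V.dim - j by omega] at this
      rw [← tr_mul_cl h4 hw (by omega), cl_divPow]
    have h4 := tr_mul_cl (W := W) hz hw (by omega)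
    have h5 : (V.V.degCycle (ops.mul z w) : ℚ) =
        ∑ i, ret (a i) * V.V.degCycle (ops.mul (divPow ops D c (y i)) w) := by
      have h6 : ((V.V.degCycle (ops.mul z w) : ℚ) : W.K) =
          ∑ i, a i * ((V.V.degCycle (ops.mul (divPow ops D c (y i)) w) : ℚ) : W.K) := by
        rw [← h4, h2]
        exact Finset.sum_congr rfl (fun i _ => by rw [h3])
      have h7 := congrArg ret h6
      have h8 : ∀ q : ℚ, ret ((q : ℚ) : W.K) = q := by
        intro q
        have : ((q : ℚ) : W.K) = q • (1 : W.K) := by rw [Algebra.smul_def, mul_one]; rfl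
        rw [this, map_smul, hret, smul_eq_mul, mul_one]
      rw [h8, map_sum] at h7
      rw [h7]
      apply Finset.sum_congr rfl
      intro i _
      have h9 : a i * ((V.V.degCycle (ops.mul (divPow ops D c (y i)) w) : ℚ) : W.K) =
          (V.V.degCycle (ops.mul (divPow ops D c (y i)) w) : ℚ) • a i := by
        rw [Algebra.smul_def, mul_comm]; rfl
      rw [h9, map_smul, smul_eq_mul, mul_comm]
    have h6 : W.tr V (W.cl V (divPow ops D c u + (-1 : ℚ) • z) * W.cl V w) = 0 := by
      rw [map_add, cl_smul, cl_divPow, hclu, map_sum, add_mul, map_add, Finset.sum_mul, map_sum,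
        smul_mul_assoc, map_smul, h4, h5]
      push_cast
      rw [smul_eq_mul, neg_one_mul, add_neg_eq_zero]
      apply Finset.sum_congr rfl
      intro i _
      have h7 := h3 i
      rw [map_smul, smul_mul_assoc, map_smul, smul_eq_mul]
      rw [hL] at h7
      rw [h7]
    rw [h6] at h1
    exact_mod_cast h1.symm
  rw [map_add, cl_smul] at h0
  push_cast at h0
  rw [neg_one_smul, add_neg_eq_zero] at h0
  exact h0

/-- **Conjecture A for generated varieties.** -/
theorem lefschetzA_of_generated (hR : ∀ Z ∈ R, HomEqNum W Z) {D : V.Cycles} (hD : V.IsCyc 1 D)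
    (hHL : HardLefschetz W V D) (hgen : ∀ j, 2 * j < V.dim → GeneratedIn W R V (2 * j)) :
    LefschetzA W V D := by
  apply lefschetzA_of_homEqNumIn hD hHL
  intro j hj
  apply homEqNumIn_of_generated hR (by omega)
  rw [show V.dim - (V.dim - j) = j by omega]
  exact hgen j hj

end Pool.Agent.U190.AN
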