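import Pool.Agent.R908.AbAnisoDefs
import Pool.Agent.U190.AN.Spec

/-!
# Varieties without isotropic invariant subspaces: definitions
-/

open CategoryTheory AlgebraicGeometry Polynomial

universe u v w w'

namespace Pool.Agent.U190.AN

open Pool.Agent.H914 Pool.Agent.H914.VarClass Pool.Agent.H914.VarClass.Obj
  Pool.Agent.H914.WeilCohomology Pool.Agent.H281R3.HT Pool.Agent.R908

variable {k : Type u} [Field k] {𝒱 : VarClass k} {ops : CycleOps 𝒱}
  {W : WeilCohomology.{u, v} ops}

/-- The combinations, with coefficients in the coefficient field, of algebraic classes of all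
codimensions. -/
def algSpan (W : WeilCohomology.{u, v} ops) (X : 𝒱.Obj) : Submodule W.K (W.H X) :=
  ⨆ q : ℤ, spanCycles W X q

/-- The projections to `H^i(X)` are combinations of algebraic correspondences, with coefficients in
the coefficient field of `W`. -/
def KunnethLinear (W : WeilCohomology.{u, v} ops) (X : 𝒱.Obj) : Prop :=
  ∀ i, ∃ γ ∈ spanCycles W (X.prod X) X.dim, ∀ j, ∀ a ∈ W.gr X j,
    W.corr γ a = if j = i then a else 0

/-- The subspace `A₀` of `H(X)` is spanned by algebraic classes, `H(X)` is the sum of `A₀` and of its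
orthogonal complement, and the complement is contained in the middle cohomology. -/
structure IsPrimitiveSplitting (W : WeilCohomology.{u, v} ops) (X : 𝒱.Obj)
    (A₀ : Submodule W.K (W.H X)) : Prop where
  alg : A₀ ≤ algSpan W X
  top : A₀ ⊔ orthCompl (W.tr X) A₀ = ⊤
  mid : orthCompl (W.tr X) A₀ ≤ W.gr X X.dim

/-- The subspace `P` has no subspace stable under the algebraic correspondences of degree zero and
the symmetries in `𝒢` except `0` and `P`. -/
def IsIrreducible (𝒢 : Set (Symmetry W)) (X : 𝒱.Obj) (P : Submodule W.K (W.H X)) : Prop :=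
  ∀ U ≤ P, (∀ e ∈ correspondences W X X.dim ∪ {e | ∃ S ∈ 𝒢, e = S.σ X}, ∀ x ∈ U, e x ∈ U) →
    U = ⊥ ∨ U = P

/-- The symmetry `S` acts on the subspace `P` of `H(X)` with a squarefree characteristic polynomial,
and every eigenvalue `α` is conjugate to `q / α` over the coefficient field. -/
def HasSelfDualSpectrum (S : Symmetry W) (X : 𝒱.Obj) (P : Submodule W.K (W.H X)) (q : W.K) : Prop :=
  ∃ h : ∀ x ∈ P, (S.σ X).toLinearMap x ∈ P, SimpleSelfDual ((S.σ X).toLinearMap.restrict h) q

/-- Picard and Lefschetz: the subspace `P` of `H(X)` is spanned by a set `Δ` of elements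
(the vanishing cycles), any two of which are conjugate up to sign under the symmetries in `𝒢`, and
for each `δ` in `Δ` some symmetry in `𝒢` acts on `P` by `x ↦ x + c tr(x δ) δ` with `c ≠ 0`. -/
def HasVanishingCycles (𝒢 : Set (Symmetry W)) (X : 𝒱.Obj) (P : Submodule W.K (W.H X)) : Prop :=
  ∃ Δ : Set (W.H X), Submodule.span W.K Δ = P ∧
    (∀ δ ∈ Δ, ∀ δ' ∈ Δ, ∃ S ∈ 𝒢, S.σ X δ = δ' ∨ S.σ X δ = -δ') ∧
    ∀ δ ∈ Δ, ∃ S ∈ 𝒢, ∃ c : W.K, c ≠ 0 ∧ ∀ x ∈ P, S.σ X x = x + (c * W.tr X (x * δ)) • δ

/-- Varieties of primitive type: `H(X)` is the sum of classes spanned by algebraic classes and of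
their orthogonal complement `P`, which is in the middle degree, and `P` is irreducible, or spanned
by vanishing cycles, or some symmetry in `𝒢` has on `P` simple eigenvalues, each `α` being conjugate
to `c / α` with the multiplier `c` of the symmetry. -/
def IsPrimitiveType (𝒢 : Set (Symmetry W)) (X : 𝒱.Obj) : Prop :=
  ∃ A₀, IsPrimitiveSplitting W X A₀ ∧ (IsIrreducible 𝒢 X (orthCompl (W.tr X) A₀) ∨
    HasVanishingCycles 𝒢 X (orthCompl (W.tr X) A₀) ∨
    ∃ S ∈ 𝒢, HasSelfDualSpectrum S X (orthCompl (W.tr X) A₀) (S.c X))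

/-- Varieties of simple abelian type: abelian varieties `A` with addition `m` and divisor `D` for
which `H^1(A)` is irreducible, or some symmetry in `𝒢`, with multiplier `c` on `A`, multiplying the
class of `D` by `d`, has on `H^1(A)` simple eigenvalues, each `α` being conjugate to
`c / (d ^ (dim A - 1) α)`. -/
def IsSimpleAbelianType (𝒢 : Set (Symmetry W)) (A : 𝒱.Obj) : Prop :=
  ∃ m D, IsAbelianType 𝒢 A m D ∧ (IsIrreducible 𝒢 A (W.gr A 1) ∨
    ∃ S ∈ 𝒢, ∃ d : W.K, d ≠ 0 ∧ S.σ A (W.cl A D) = d • W.cl A D ∧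
      HasSelfDualSpectrum S A (W.gr A 1) (S.c A / d ^ (A.dim - 1)))

/-- Varieties of anisotropic type: the sign is algebraic on the transcendental cohomology and every
non-zero stable subspace of it pairs non-trivially with itself, or the same for the first cohomology
of a variety of abelian type. -/
def IsAnisotropicType (𝒢 : Set (Symmetry W)) (X : 𝒱.Obj) : Prop :=
  (SignAlgebraic W X ∧ Anisotropic 𝒢 X) ∨ ∃ m D, IsAbelianType 𝒢 X m D ∧ AnisotropicOne 𝒢 X

/-- The building blocks: varieties of primitive type, of simple abelian type, or of anisotropic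
type. -/
def IsBlock (𝒢 : Set (Symmetry W)) (X : 𝒱.Obj) : Prop :=
  IsPrimitiveType 𝒢 X ∨ IsSimpleAbelianType 𝒢 X ∨ IsAnisotropicType 𝒢 X

/-- The building blocks with Künneth projectors given by combinations of algebraic cycles. -/
def IsKunnethBlock (𝒢 : Set (Symmetry W)) (X : 𝒱.Obj) : Prop :=
  IsPrimitiveType 𝒢 X ∨ IsSimpleAbelianType 𝒢 X ∨ (KunnethLinear W X ∧ IsAnisotropicType 𝒢 X)

/-- The iterated products, with repetitions, of members of `P` and of `𝒴`. -/
def products (P 𝒴 : Set 𝒱.Obj) : Set 𝒱.Obj := {Z | IsProductOf (P ∪ 𝒴) Z}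

/-- The space `H^i(V)` is spanned by the images of algebraic correspondences from members of `R`. -/
def GeneratedIn (W : WeilCohomology.{u, v} ops) (R : Set 𝒱.Obj) (V : 𝒱.Obj) (i : ℕ) : Prop :=
  W.gr V i ≤ Submodule.span W.K {x | ∃ Z ∈ R, ∃ (p : ℕ) (z : (Z.prod V).Cycles),
    (Z.prod V).IsCyc p z ∧ ∃ a : W.H Z, W.corr (W.cl _ z) a = x}

/-- The cycle `z` on `X × X` induces on `H^i(X)` the projection to `ξ H^(i - 2)(X)` whose kernel
consists of the primitive classes, where `ξ` is the class of `D`. -/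
def InducesPrimitiveProjection (W : WeilCohomology.{u, v} ops) (X : 𝒱.Obj) (D : X.Cycles) (i : ℕ)
    (z : (X.prod X).Cycles) : Prop :=
  (X.prod X).IsCyc X.dim z ∧ ∀ a ∈ W.gr X i,
    (∃ b, (2 ≤ i ∧ b ∈ W.gr X (i - 2) ∨ b = 0) ∧ W.corr (W.cl _ z) a = W.cl X D * b) ∧
    W.cl X D ^ (X.dim - i + 1) * (a - W.corr (W.cl _ z) a) = 0

end Pool.Agent.U190.AN
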