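import Pool.Agent.U190.AN.One

/-!
# The identity factors through the generating varieties
-/

open CategoryTheory AlgebraicGeometry Finset

universe u₁ v₁ u v

namespace Pool.Agent.U190.AN

open Pool.Agent.H914 Pool.Agent.H447 Pool.Agent.W537 Pool.Agent.Y106.One Pool.Agent.Y106.Gen
  VarClass Obj WeilCohomology

variable {k : Type u} [Field k] {𝒱 : VarClass k} {ops : CycleOps 𝒱}
  {W : WeilCohomology.{u, v} ops} {X Y Z : 𝒱.Obj} {R : Set 𝒱.Obj}

/-- The operators of degree zero on `H(X)` which factor through members of `R`. -/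
def facOps (W : WeilCohomology.{u, v} ops) (R : Set 𝒱.Obj) (X : 𝒱.Obj) :
    Submodule W.K (Module.End W.K (W.H X)) :=
  Submodule.span W.K {x | ∃ Z ∈ R, ∃ (d : ℤ), ∃ φ ∈ KOp W Z X d, ∃ ψ ∈ KOp W X Z (-d), x = φ ∘ₗ ψ}

lemma facOps_le : facOps W R X ≤ KOp W X X 0 := by
  rw [facOps, Submodule.span_le]
  rintro _ ⟨Z, -, d, φ, hφ, ψ, hψ, rfl⟩
  exact KOp.cast (KOp.comp hφ hψ) (by ring)

/-- **Non-degeneracy.** -/
theorem eq_zero_of_fac (hS : IsStandardK W R) {i i' : ℕ} (hii : i + i' = 2 * X.dim)
    (hgen : IsGeneratedBy W R X i) (hgen' : IsGeneratedBy W R X i')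
    {u : Module.End W.K (W.H X)} (hu : u ∈ KOp W X X 0)
    (h0 : ∀ x ∈ facOps W R X, LinearMap.trace W.K (W.H X)
      (proj (W.isInternal X) i ∘ₗ (x ∘ₗ u)) = 0) :
    ∀ a ∈ W.gr X i, u a = 0 := by
  refine gen_induction hgen (p := fun a => u a = 0) (map_zero _) ?_ ?_ ?_
  · intro a b ha hb
    rw [map_add, ha, hb, add_zero]
  · intro c a ha
    rw [map_smul, ha, smul_zero]
  · intro Y hY d φ hφ j a ha hjd
    have hφa : φ a ∈ W.gr X i := by
      have := KOp.isHom hφ j a (by rw [grZ_natCast]; exact ha)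
      rwa [hjd, grZ_natCast] at this
    have huφ : u (φ a) ∈ W.gr X i := by
      have := KOp.isHom hu i _ (by rw [grZ_natCast]; exact hφa)
      rwa [mul_zero, add_zero, grZ_natCast] at this
    apply nondeg_right
    intro y
    refine gr_induction (W.isInternal X) (p := fun y => W.tr X (y * (u (φ a))) = 0) ?_ ?_ y
    swap
    · intro b b' hb hb'
      rw [add_mul, map_add, hb, hb', add_zero]
    intro l y hy
    by_cases hl : l = i'
    swap
    · exact W.tr_eq_zero (W.mul_mem hy huφ) (by omega)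
    subst hl
    revert y
    refine gen_induction hgen' (p := fun y => W.tr X (y * (u (φ a))) = 0) ?_ ?_ ?_ ?_
    · rw [zero_mul, map_zero]
    · intro b b' hb hb'
      rw [add_mul, map_add, hb, hb', add_zero]
    · intro c b hb
      rw [smul_mul_assoc, map_smul, hb, smul_zero]
    · intro Y' hY' d' φ' hφ' j' a' ha' hjd'
      obtain ⟨ψ', hψ', hadj⟩ := KOp.exists_adjoint hφ'
      rw [hadj]
      have hPK : proj (W.isInternal Y) j ∈ KOp W Y Y 0 := hS.kunneth Y hY j
      set η : W.H Y →ₗ[W.K] W.H Y' := ψ' ∘ₗ (u ∘ₗ (φ ∘ₗ proj (W.isInternal Y) j)) with hη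
      have hηK : η ∈ KOp W Y Y' (d + d' + Y'.dim - X.dim) :=
        KOp.cast (KOp.comp hψ' (KOp.comp hu (KOp.comp hφ hPK))) (by ring)
      have hη0 : η = 0 := by
        apply kop_eq_zero (hS.homEqNum Y hY Y' hY') hηK
        intro β hβ
        have hpar : par (W.isInternal Y') ∘ₗ η = ((-1 : W.K) ^ j) • η := by
          apply gr_ext (W.isInternal Y)
          intro m b hb
          rw [LinearMap.comp_apply, LinearMap.smul_apply]
          by_cases hm : m = j
          · subst hm
            have h4 := KOp.isHom hηK m b (by rw [grZ_natCast]; exact hb)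
            by_cases hneg : (m : ℤ) + 2 * (d + d' + Y'.dim - X.dim) < 0
            · rw [grZ_of_neg hneg] at h4
              rw [(Submodule.mem_bot _).1 h4, map_zero, smul_zero]
            · obtain ⟨t, ht⟩ : ∃ t : ℕ, (t : ℤ) = (m : ℤ) + 2 * (d + d' + Y'.dim - X.dim) :=
                ⟨((m : ℤ) + 2 * (d + d' + Y'.dim - X.dim)).toNat, by omega⟩
              rw [← ht, grZ_natCast] at h4
              rw [par, scal_apply _ _ h4]
              congr 1
              have h5 : (t % 2) = (m % 2) := by omega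
              rw [← Nat.mod_add_div t 2, ← Nat.mod_add_div m 2, pow_add, pow_add, pow_mul, pow_mul,
                h5]
              norm_num
          · have h4 : η b = 0 := by
              rw [hη]
              simp only [LinearMap.comp_apply]
              rw [proj_ne _ hb hm, map_zero, map_zero, map_zero]
            rw [h4, map_zero, smul_zero]
        have hx : φ ∘ₗ (β ∘ₗ ψ') ∈ facOps W R X :=
          Submodule.subset_span ⟨Y, hY, d, φ, hφ, β ∘ₗ ψ', KOp.cast (KOp.comp hβ hψ') (by ring), rfl⟩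
        have h5 := h0 _ hx
        rw [← LinearMap.comp_assoc, hpar, LinearMap.smul_comp, map_smul]
        have h6 : LinearMap.trace W.K (W.H Y') (η ∘ₗ β) = 0 := by
          have e1 : η ∘ₗ β = ψ' ∘ₗ (u ∘ₗ ((φ ∘ₗ proj (W.isInternal Y) j) ∘ₗ β)) := by
            rw [hη]
            simp only [LinearMap.comp_assoc]
          have e2 : (u ∘ₗ ((φ ∘ₗ proj (W.isInternal Y) j) ∘ₗ β)) ∘ₗ ψ' =
              u * (proj (W.isInternal X) i ∘ₗ (φ ∘ₗ (β ∘ₗ ψ'))) := by
            rw [proj_comp_kop hφ hjd]
            simp only [LinearMap.comp_assoc, Module.End.mul_eq_comp]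
          have e3 : (proj (W.isInternal X) i ∘ₗ (φ ∘ₗ (β ∘ₗ ψ'))) * u =
              proj (W.isInternal X) i ∘ₗ ((φ ∘ₗ (β ∘ₗ ψ')) ∘ₗ u) := by
            simp only [LinearMap.comp_assoc, Module.End.mul_eq_comp]
          rw [e1, LinearMap.trace_comp_comm', e2, LinearMap.trace_mul_comm, e3]
          exact h5
        rw [h6, smul_zero]
      have h3 : ψ' (u (φ a)) = η a := by
        rw [hη]
        simp only [LinearMap.comp_apply]
        rw [proj_same _ ha]
      rw [h3, hη0, LinearMap.zero_apply, mul_zero, map_zero]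

/-- **The identity of `H^i(X)` factors through the members of `R`.** -/
theorem exists_fac (hS : IsStandardK W R) {i i' : ℕ} (hii : i + i' = 2 * X.dim)
    (hgen : IsGeneratedBy W R X i) (hgen' : IsGeneratedBy W R X i') :
    ∃ x ∈ facOps W R X, ∀ a ∈ W.gr X i, x a = a := by
  set P := proj (W.isInternal X) i with hP
  obtain ⟨x, hx, hx'⟩ := exists_rep_of_orth (trForm P 1) (facOps W R X)
    (KOp W X X 0) (LinearMap.trace W.K (W.H X) ∘ₗ LinearMap.mulLeft W.K P) (by
      intro u hu h0
      have h1 : ∀ a ∈ W.gr X i, u a = 0 :=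
        eq_zero_of_fac hS hii hgen hgen' hu (fun γ hγ => h0 γ hγ)
      have h2 : P * u = 0 := by
        have h3 : IsHom (W.gr X) 0 u := by
          intro j a ha
          exact KOp.isHom hu j a ha
        have h4 : P * u = u * P := h3.proj_comm (W.isInternal X) i
        rw [h4]
        apply LinearMap.ext
        intro a
        exact h1 _ (proj_mem _ i a)
      rw [LinearMap.comp_apply, LinearMap.mulLeft_apply, h2, map_zero])
  refine ⟨x, hx, ?_⟩
  set w : Module.End W.K (W.H X) := 1 - x with hw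
  have hwK : w ∈ KOp W X X 0 := Submodule.sub_mem _ (KOp.id X) (facOps_le hx)
  have hwP : P * w = w * P := by
    have h3 : IsHom (W.gr X) 0 w := by
      intro j a ha
      exact KOp.isHom hwK j a ha
    exact h3.proj_comm (W.isInternal X) i
  have key : ∀ a ∈ W.gr X i, w a = 0 := by
    apply eq_zero_of_fac hS hii hgen hgen' hwK
    intro y hy
    have h1 := hx' y (facOps_le hy)
    rw [trForm_apply, LinearMap.comp_apply, LinearMap.mulLeft_apply] at h1
    have h1' : LinearMap.trace W.K (W.H X) (P * (x * y)) =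
        LinearMap.trace W.K (W.H X) (P * y) := h1
    have h2 : P ∘ₗ (y ∘ₗ w) = (P * y) * w := rfl
    have h3 : w * (P * y) = P * y - P * (x * y) := by
      rw [← mul_assoc, ← hwP, hw, mul_assoc, sub_mul, one_mul, mul_sub]
    rw [h2, LinearMap.trace_mul_comm, h3, map_sub, h1', sub_self]
  intro a ha
  have h1 := key a ha
  rw [hw, LinearMap.sub_apply, Module.End.one_apply, sub_eq_zero] at h1
  exact h1.symm

end Pool.Agent.U190.AN
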