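import Pool.Agent.R908.KoC
import Pool.Agent.U190.AN.Defs

/-!
# Homological and numerical equivalence for varieties without isotropic invariant subspaces in the
transcendental cohomology
-/

open CategoryTheory AlgebraicGeometry

universe u v w w'

namespace Pool.Agent.U190.AN

open Pool.Agent.H914 Pool.Agent.H914.VarClass Pool.Agent.H914.VarClass.Obj
  Pool.Agent.H914.WeilCohomology Pool.Agent.H281R3.HT Pool.Agent.R908

variable {k : Type u} [Field k] {𝒱 : VarClass k} {ops : CycleOps 𝒱}
  {W : WeilCohomology.{u, v} ops} {X : 𝒱.Obj} {𝒢 : Set (Symmetry W)}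

lemma algSpan_induction {p : W.H X → Prop} (h : ∀ (q : ℤ) x, x ∈ spanCycles W X q → p x)
    (h0 : p 0) (hadd : ∀ x y, p x → p y → p (x + y)) {x : W.H X} (hx : x ∈ algSpan W X) : p x := by
  refine Submodule.iSup_induction (fun q : ℤ => spanCycles W X q) (motive := p) hx ?_ h0 hadd
  intro q x hx
  exact h q x hx

lemma mem_algSpan {q : ℤ} {x : W.H X} (hx : x ∈ spanCycles W X q) : x ∈ algSpan W X :=
  Submodule.mem_iSup_of_mem q hx

lemma tr_span {x : W.H X} (hx : x ∈ transcendental W X) {y : W.H X} (hy : y ∈ algSpan W X) :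
    W.tr X (x * y) = 0 := by
  refine algSpan_induction (p := fun y => W.tr X (x * y) = 0) ?_ ?_ ?_ hy
  · intro q g hg
    induction hg using Submodule.span_induction with
    | mem g hg =>
      obtain ⟨p, hp, z, hz, rfl⟩ := hg
      exact mem_trans.1 hx p _ ⟨z, hz, rfl⟩
    | zero => rw [mul_zero, map_zero]
    | add a b _ _ ha hb => rw [mul_add, map_add, ha, hb, add_zero]
    | smul c a _ ha => rw [mul_smul_comm, map_smul, ha, smul_zero]
  · rw [mul_zero, map_zero]
  · intro a b ha hb
    rw [mul_add, map_add, ha, hb, add_zero]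

lemma kop_algSpan {δ : ℤ} {φ : W.H X →ₗ[W.K] W.H X} (hφ : φ ∈ KOp W X X δ) {x : W.H X}
    (hx : x ∈ algSpan W X) : φ x ∈ algSpan W X := by
  refine algSpan_induction (p := fun x => φ x ∈ algSpan W X) ?_ ?_ ?_ hx
  · intro q g hg
    exact mem_algSpan (KOp.map_span hφ hg)
  · rw [map_zero]; exact Submodule.zero_mem _
  · intro a b ha hb
    rw [map_add]; exact Submodule.add_mem _ ha hb

lemma sym_algSpan (S : Symmetry W) {x : W.H X} (hx : x ∈ algSpan W X) :
    S.σ X x ∈ algSpan W X := by
  refine algSpan_induction (p := fun x => S.σ X x ∈ algSpan W X) ?_ ?_ ?_ hx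
  · intro q g hg
    exact mem_algSpan (S.span hg)
  · rw [map_zero]; exact Submodule.zero_mem _
  · intro a b ha hb
    rw [map_add]; exact Submodule.add_mem _ ha hb

/-- The algebraic classes in the transcendental cohomology vanish. -/
theorem inf_eq_bot (hA : Anisotropic 𝒢 X) : algSpan W X ⊓ transcendental W X = ⊥ := by
  by_contra hne
  obtain ⟨θ, hθ, x, hx, y, hy, hxy⟩ := hA _ inf_le_right hne (by
    rintro e (he | ⟨S, hS, rfl⟩) v hv
    · obtain ⟨δ, φ, hφ, he, hδ⟩ := corr_mem_correspondences he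
      rw [← he]
      exact ⟨kop_algSpan hφ hv.1, KOp.trans hφ hv.2⟩
    · exact ⟨sym_algSpan S hv.1, S.trans hv.2⟩)
  obtain ⟨p, hp⟩ := Set.mem_iUnion.1 hθ
  obtain ⟨δ, θ', hθ', he, -⟩ := corr_mem_correspondences hp
  apply hxy
  change W.tr X (x * θ y) = 0
  rw [← he]
  exact tr_span hx.2 (kop_algSpan hθ' hy.1)

/-- **Conjecture D for a variety without isotropic invariant subspaces in the transcendental
cohomology.** -/
theorem homEqNum_of_aniso (hA : Anisotropic 𝒢 X) : HomEqNum W X := by
  intro j hj z hz hnum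
  have h1 : W.cl X z ∈ transcendental W X := by
    rw [mem_trans]
    rintro i c ⟨w, hw, rfl⟩
    rw [bil_apply]
    by_cases hij : i = X.dim - j
    · subst hij
      have h3 := ops.mul_mem hz hw
      rw [Nat.add_sub_cancel' hj] at h3
      rw [← W.cl_mul, W.tr_cl, hnum w hw, Rat.cast_zero]
      exact h3
    · exact W.tr_eq_zero (W.mul_mem (W.cl_mem hz) (W.cl_mem hw)) (by omega)
  have h2 : W.cl X z ∈ algSpan W X ⊓ transcendental W X :=
    ⟨mem_algSpan (q := j) (Submodule.subset_span ⟨j, rfl, z, hz, rfl⟩), h1⟩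
  rw [inf_eq_bot hA, Submodule.mem_bot] at h2
  exact h2

end Pool.Agent.U190.AN
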