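import Pool.Agent.Y106.Gen.Main
import Pool.Agent.U190.AN.Hom

/-!
# Cohomology generated by correspondences, with Künneth projectors given by combinations of cycles
with coefficients in the coefficient field

The proofs are those of `Y106/Gen/Main`, with a weaker hypothesis on the Künneth projectors.
-/

open CategoryTheory AlgebraicGeometry Finset

universe u₁ v₁ u v

namespace Pool.Agent.U190.AN

open Pool.Agent.H914 Pool.Agent.H447 Pool.Agent.W537 Pool.Agent.Y106.One Pool.Agent.Y106.Gen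
  VarClass Obj WeilCohomology

variable {k : Type u} [Field k] {𝒱 : VarClass k} {ops : CycleOps 𝒱}
  {W : WeilCohomology.{u, v} ops} {X Y Z : 𝒱.Obj}

lemma KunnethLinear.kop (h : KunnethLinear W X) (i : ℕ) : proj (W.isInternal X) i ∈ KOp W X X 0 := by
  obtain ⟨γ, hγ, hγ'⟩ := h i
  refine mem_KOp_iff.2 ⟨γ, by rw [add_zero]; exact hγ, ?_⟩
  apply gr_ext (W.isInternal X)
  intro j a ha
  rw [hγ' j a ha]
  split_ifs with hij
  · subst hij
    rw [proj_same _ ha]
  · rw [proj_ne _ ha hij]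

lemma KunnethLinear.of_kop (h : ∀ i, proj (W.isInternal X) i ∈ KOp W X X 0) :
    KunnethLinear W X := by
  intro i
  obtain ⟨γ, hγ, hγ'⟩ := mem_KOp_iff.1 (h i)
  rw [add_zero] at hγ
  refine ⟨γ, hγ, fun j a ha => ?_⟩
  rw [hγ']
  split_ifs with hij
  · subst hij
    rw [proj_same _ ha]
  · rw [proj_ne _ ha hij]

/-- The Künneth projectors of the members of `S` are combinations of cycles with coefficients in the
coefficient field, and conjecture D holds for the products of two members. -/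
structure IsStandardK (W : WeilCohomology.{u, v} ops) (S : Set 𝒱.Obj) : Prop where
  kunneth : ∀ Y ∈ S, ∀ i, proj (W.isInternal Y) i ∈ KOp W Y Y 0
  homEqNum : ∀ Y ∈ S, ∀ Y' ∈ S, HomEqNum W (Y.prod Y')

/-- **Non-degeneracy.** A correspondence `u` of degree zero such that all the traces of the
compositions `γ ξ ^ c u` on `H^i(X)` vanish is zero on `H^i(X)`. -/
theorem eq_zero_of_traces {S : Set 𝒱.Obj} (hS : IsStandardK W S) {i : ℕ} (hi : i ≤ X.dim)
    (hgen : IsGeneratedBy W S X i) {L : Module.End W.K (W.H X)}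
    (hL : L ∈ KOp W X X ((X.dim - i : ℕ) : ℤ)) (hinj : ∀ a ∈ W.gr X i, L a = 0 → a = 0)
    {u : Module.End W.K (W.H X)} (hu : u ∈ KOp W X X 0)
    (h0 : ∀ γ ∈ KOp W X X (-((X.dim - i : ℕ) : ℤ)), LinearMap.trace W.K (W.H X)
      (proj (W.isInternal X) i ∘ₗ (γ ∘ₗ (L ∘ₗ u))) = 0) :
    ∀ a ∈ W.gr X i, u a = 0 := by
  refine gen_induction hgen (p := fun a => u a = 0) (map_zero _) ?_ ?_ ?_
  · intro a b ha hb
    rw [map_add, ha, hb, add_zero]
  · intro c a ha
    rw [map_smul, ha, smul_zero]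
  · intro Y hY d φ hφ j a ha hjd
    have hφa : φ a ∈ W.gr X i := by
      have := KOp.isHom hφ j a (by rw [grZ_natCast]; exact ha)
      rwa [hjd, grZ_natCast] at this
    have huφ : u (φ a) ∈ W.gr X i := by
      have := KOp.isHom hu i _ (by rw [grZ_natCast]; exact hφa)
      rwa [mul_zero, add_zero, grZ_natCast] at this
    apply hinj _ huφ
    -- it suffices to pair with the elements of degree `i`
    have hLu : L (u (φ a)) ∈ W.gr X (2 * X.dim - i) := by
      have := KOp.isHom hL i _ (by rw [grZ_natCast]; exact huφ)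
      rwa [show (i : ℤ) + 2 * ((X.dim - i : ℕ) : ℤ) = ((2 * X.dim - i : ℕ) : ℤ) by omega,
        grZ_natCast] at this
    apply nondeg_right
    intro y
    refine gr_induction (W.isInternal X) (p := fun y => W.tr X (y * L (u (φ a))) = 0) ?_ ?_ y
    swap
    · intro b b' hb hb'
      rw [add_mul, map_add, hb, hb', add_zero]
    intro l y hy
    by_cases hl : l = i
    swap
    · exact W.tr_eq_zero (W.mul_mem hy hLu) (by omega)
    subst hl
    revert y
    refine gen_induction hgen (p := fun y => W.tr X (y * L (u (φ a))) = 0) ?_ ?_ ?_ ?_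
    · rw [zero_mul, map_zero]
    · intro b b' hb hb'
      rw [add_mul, map_add, hb, hb', add_zero]
    · intro c b hb
      rw [smul_mul_assoc, map_smul, hb, smul_zero]
    · intro Y' hY' d' φ' hφ' j' a' ha' hjd'
      obtain ⟨ψ', hψ', hadj⟩ := KOp.exists_adjoint hφ'
      rw [hadj]
      have hLuK : L ∘ₗ u ∈ KOp W X X (0 + ((X.dim - l : ℕ) : ℤ)) := KOp.comp hL hu
      have hPK : proj (W.isInternal Y) j ∈ KOp W Y Y 0 := hS.kunneth Y hY j
      set η : W.H Y →ₗ[W.K] W.H Y' := ψ' ∘ₗ ((L ∘ₗ u) ∘ₗ (φ ∘ₗ proj (W.isInternal Y) j)) with hη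
      have hηK : η ∈ KOp W Y Y' (d + d' + Y'.dim - l) :=
        KOp.cast (KOp.comp hψ' (KOp.comp hLuK (KOp.comp hφ hPK))) (by omega)
      have hη0 : η = 0 := by
        apply kop_eq_zero (hS.homEqNum Y hY Y' hY') hηK
        intro β hβ
        have hpar : par (W.isInternal Y') ∘ₗ η = ((-1 : W.K) ^ (2 * Y'.dim - j')) • η := by
          apply gr_ext (W.isInternal Y)
          intro m b hb
          rw [LinearMap.comp_apply, LinearMap.smul_apply]
          by_cases hm : m = j
          · subst hm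
            have h4 := KOp.isHom hηK m b (by rw [grZ_natCast]; exact hb)
            by_cases hj' : j' ≤ 2 * Y'.dim
            · rw [show (m : ℤ) + 2 * (d + d' + Y'.dim - l) = ((2 * Y'.dim - j' : ℕ) : ℤ) by omega,
                grZ_natCast] at h4
              rw [par, scal_apply _ _ h4]
            · rw [grZ_of_neg (by omega)] at h4
              rw [(Submodule.mem_bot _).1 h4, map_zero, smul_zero]
          · have h4 : η b = 0 := by
              rw [hη]
              simp only [LinearMap.comp_apply]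
              rw [proj_ne _ hb hm, map_zero, map_zero, map_zero, map_zero]
            rw [h4, map_zero, smul_zero]
        have h5 := h0 (φ ∘ₗ (β ∘ₗ ψ')) (KOp.cast (KOp.comp hφ (KOp.comp hβ hψ')) (by omega))
        rw [← LinearMap.comp_assoc, hpar, LinearMap.smul_comp, map_smul]
        have h6 : LinearMap.trace W.K (W.H Y') (η ∘ₗ β) = 0 := by
          have e1 : η ∘ₗ β = ψ' ∘ₗ ((L ∘ₗ u) ∘ₗ ((φ ∘ₗ proj (W.isInternal Y) j) ∘ₗ β)) := by
            rw [hη]
            simp only [LinearMap.comp_assoc]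
          have e2 : ((L ∘ₗ u) ∘ₗ ((φ ∘ₗ proj (W.isInternal Y) j) ∘ₗ β)) ∘ₗ ψ' =
              (L ∘ₗ u) * (proj (W.isInternal X) l ∘ₗ (φ ∘ₗ (β ∘ₗ ψ'))) := by
            rw [proj_comp_kop hφ hjd]
            simp only [LinearMap.comp_assoc, Module.End.mul_eq_comp]
          have e3 : (proj (W.isInternal X) l ∘ₗ (φ ∘ₗ (β ∘ₗ ψ'))) * (L ∘ₗ u) =
              proj (W.isInternal X) l ∘ₗ ((φ ∘ₗ (β ∘ₗ ψ')) ∘ₗ (L ∘ₗ u)) := by
            simp only [LinearMap.comp_assoc, Module.End.mul_eq_comp]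
          rw [e1, LinearMap.trace_comp_comm', e2, LinearMap.trace_mul_comm, e3]
          exact h5
        rw [h6, smul_zero]
      have h3 : ψ' (L (u (φ a))) = η a := by
        rw [hη]
        simp only [LinearMap.comp_apply]
        rw [proj_same _ ha]
      rw [h3, hη0, LinearMap.zero_apply, mul_zero, map_zero]

/-- The bilinear form `(γ, u) ↦ tr(γ ξ ^ c u)` on `H^i(X)`. -/
noncomputable def trForm (P L : Module.End W.K (W.H X)) :
    Module.End W.K (W.H X) →ₗ[W.K] Module.End W.K (W.H X) →ₗ[W.K] W.K :=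
  (LinearMap.mul W.K (Module.End W.K (W.H X))).compl₁₂ (LinearMap.mulLeft W.K P)
    (LinearMap.mulLeft W.K L) |>.compr₂ (LinearMap.trace W.K (W.H X))

lemma trForm_apply (P L γ u : Module.End W.K (W.H X)) :
    trForm P L γ u = LinearMap.trace W.K (W.H X) (P ∘ₗ (γ ∘ₗ (L ∘ₗ u))) := rfl

/-- **The inverse of `ξ ^ (n - i)` is given by a correspondence.** -/
theorem exists_inverse {S : Set 𝒱.Obj} (hS : IsStandardK W S) {i : ℕ} (hi : i ≤ X.dim)
    (hgen : IsGeneratedBy W S X i) {L : Module.End W.K (W.H X)}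
    (hL : L ∈ KOp W X X ((X.dim - i : ℕ) : ℤ)) (hinj : ∀ a ∈ W.gr X i, L a = 0 → a = 0) :
    ∃ γ ∈ KOp W X X (-((X.dim - i : ℕ) : ℤ)), ∀ a ∈ W.gr X i, γ (L a) = a := by
  set P := proj (W.isInternal X) i with hP
  obtain ⟨γ, hγ, hγ'⟩ := exists_rep_of_orth (trForm P L) (KOp W X X (-((X.dim - i : ℕ) : ℤ)))
    (KOp W X X 0) (LinearMap.trace W.K (W.H X) ∘ₗ LinearMap.mulLeft W.K P) (by
      intro u hu h0
      have h1 : ∀ a ∈ W.gr X i, u a = 0 :=
        eq_zero_of_traces hS hi hgen hL hinj hu (fun γ hγ => h0 γ hγ)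
      have h2 : P * u = 0 := by
        have h3 : IsHom (W.gr X) 0 u := by
          intro j a ha
          exact KOp.isHom hu j a ha
        have h4 : P * u = u * P := h3.proj_comm (W.isInternal X) i
        rw [h4]
        apply LinearMap.ext
        intro a
        exact h1 _ (proj_mem _ i a)
      rw [LinearMap.comp_apply, LinearMap.mulLeft_apply, h2, map_zero])
  refine ⟨γ, hγ, ?_⟩
  set w : Module.End W.K (W.H X) := 1 - γ ∘ₗ L with hw
  have hwK : w ∈ KOp W X X 0 := Submodule.sub_mem _ (KOp.id X)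
    (KOp.cast (KOp.comp hγ hL) (by ring))
  have hwP : P * w = w * P := by
    have h3 : IsHom (W.gr X) 0 w := by
      intro j a ha
      exact KOp.isHom hwK j a ha
    exact h3.proj_comm (W.isInternal X) i
  have key : ∀ a ∈ W.gr X i, w a = 0 := by
    apply eq_zero_of_traces hS hi hgen hL hinj hwK
    intro γ' hγ'K
    have h1 := hγ' (γ' ∘ₗ L) (KOp.cast (KOp.comp hγ'K hL) (by ring))
    rw [trForm_apply, LinearMap.comp_apply, LinearMap.mulLeft_apply] at h1
    have h2 : P ∘ₗ (γ' ∘ₗ (L ∘ₗ w)) = (P * (γ' ∘ₗ L)) * w := rfl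
    have h3 : w * (P * (γ' ∘ₗ L)) = P * (γ' ∘ₗ L) - P ∘ₗ (γ ∘ₗ (L ∘ₗ (γ' ∘ₗ L))) := by
      rw [← mul_assoc, ← hwP, hw, mul_sub, mul_one, sub_mul]
      rfl
    rw [h2, LinearMap.trace_mul_comm, h3, map_sub, h1, sub_self]
  intro a ha
  have h1 := key a ha
  rw [hw, LinearMap.sub_apply, Module.End.one_apply, LinearMap.comp_apply, sub_eq_zero] at h1
  exact h1.symm

/-- A combination of cycles which is inverse to `ξ ^ (n - i)`. -/
theorem injectsLefschetz {S : Set 𝒱.Obj} (hS : IsStandardK W S) {i : ℕ} (hi : i ≤ X.dim)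
    (hgen : IsGeneratedBy W S X i) {D : X.Cycles} (hD : X.IsCyc 1 D)
    (hL : InjectsOn (W.gr X i) (lefPow W X D (X.dim - i))) : InjectsLefschetz W X D i := by
  have hLK : LL D W ^ (X.dim - i) ∈ KOp W X X ((X.dim - i : ℕ) : ℤ) := by
    refine mem_KS_iff.1 (Submodule.subset_span ?_)
    obtain ⟨Y, hY, hYW⟩ := LL_rop (W := W) hD
    exact ⟨_, (hY.pow _).cast (by ring), by rw [hYW]⟩
  have hLL : LL D W ^ (X.dim - i) = lefPow W X D (X.dim - i) := by
    rw [lefPow, LinearMap.pow_mulLeft]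
  obtain ⟨γ, hγ, hinv⟩ := exists_inverse hS hi hgen hLK (fun a ha h0 => hL a ha (by
    rw [← hLL]; exact h0))
  obtain ⟨γ', hγ', rfl⟩ := mem_KOp_iff.1 hγ
  refine ⟨γ', by rwa [show (X.dim : ℤ) + -((X.dim - i : ℕ) : ℤ) = i by omega] at hγ', ?_⟩
  intro a ha h0
  have h1 := hinv a ha
  rw [hLL] at h1
  rw [← h1]
  exact h0

end Pool.Agent.U190.AN
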