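import Pool.Agent.U190.AN.ConjA

/-!
# The conjecture of Lefschetz type in one degree
-/

open CategoryTheory AlgebraicGeometry

universe u₁ v₁ u v w w'

namespace Pool.Agent.U190.AN

open Pool.Agent.H914 Pool.Agent.H914.VarClass Pool.Agent.H914.VarClass.Obj
  Pool.Agent.H914.WeilCohomology Pool.Agent.H281R3.HT Pool.Agent.R908 Pool.Agent.H447
  Pool.Agent.W537 Pool.Agent.Y106.One

variable {k : Type u} [Field k] {𝒱 : VarClass k} {ops : CycleOps 𝒱}
  {W : WeilCohomology.{u, v} ops} {X Y V Z : 𝒱.Obj} {𝒢 : Set (Symmetry W)} {P 𝒴 R : Set 𝒱.Obj}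

lemma sameTraces_of_kunneth (hK : KunnethStd W X) (i : ℕ) : SameTraces X i W W := by
  intro T hT
  obtain ⟨z, hz, hzp⟩ := hK i
  have hz' : Realized.{u, v} ops X 0 (fun W => W.corr (W.cl _ z)) :=
    Or.inl ⟨X.dim, by simp, z, hz, fun _ => rfl⟩
  have hr : Realized ops X 0 (fun W => W.corr (W.cl _ z) * T W) := (hz'.mul hT).cast (zero_add 0)
  obtain ⟨t, ht⟩ := Pool.Agent.W537.str_indep hr
  have hg : W.corr (W.cl _ z) = proj (W.isInternal X) i := by
    apply gr_ext (W.isInternal X)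
    intro j a ha
    rw [hzp j a ha]
    split_ifs with h
    · subst h; rw [proj_same _ ha]
    · rw [proj_ne _ ha h]
  have h1 : LinearMap.trace W.K (W.H X) (proj (W.isInternal X) i * T W) =
      (((-1) ^ i * t : ℚ) : W.K) := by
    rw [trace_proj_eq, ← hg, ht W]
    push_cast
    rfl
  exact ⟨(-1) ^ i * t, h1, h1⟩

/-- **The inverse of `ξ ^ (n - i)` is algebraic** if the cohomology in degree `i` is generated. -/
theorem inverts_of_generated (hK : KunnethStd W X) (hS : IsStandardK W R) {D : X.Cycles}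
    (hD : X.IsCyc 1 D) (hHL : HardLefschetz W X D) {i : ℕ} (hi : i ≤ X.dim)
    (hgen : GeneratedIn W R X i) : ∃ z, InvertsLefschetz W X D i z := by
  obtain ⟨γ, hγ, hinj⟩ := injectsLefschetz hS hi hgen.isGeneratedBy hD (injectsOn_of_hl hHL hi)
  exact inverts_of_inj hi (sameTraces_of_kunneth hK i) hD hγ
    (fun a ha h0 => hinj a ha (by rwa [LinearMap.pow_mulLeft] at h0))

/-- **The primitive decomposition is algebraic.** -/
theorem primitive_of_inverts {D : X.Cycles} (hD : X.IsCyc 1 D) {i : ℕ} (hi : i + 2 ≤ X.dim)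
    {z : (X.prod X).Cycles} (hz : InvertsLefschetz W X D i z) :
    ∃ y, InducesPrimitiveProjection W X D (i + 2) y := by
  obtain ⟨hz, hinv⟩ := hz
  have hLz : ROp W X (-((X.dim - i : ℕ) : ℤ)) (W.corr (W.cl _ z)) := by
    have := rop_corr (W := W) (X := X) (p := i) (d := -((X.dim - i : ℕ) : ℤ)) (by omega) hz
    exact this
  have hL : ROp W X 1 (LinearMap.mulLeft W.K (W.cl X D)) := rop_mulLeft hD
  have hLp : ∀ n : ℕ, ROp W X n (LinearMap.mulLeft W.K (W.cl X D) ^ n) := by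
    intro n
    obtain ⟨Y, hY, hYW⟩ := hL
    exact ⟨_, (hY.pow n).cast (by ring), by rw [hYW]⟩
  have hcomp : ROp W X 0 (LinearMap.mulLeft W.K (W.cl X D) * (W.corr (W.cl _ z) *
      LinearMap.mulLeft W.K (W.cl X D) ^ (X.dim - i - 1))) := by
    obtain ⟨A, hA, hAW⟩ := hL
    obtain ⟨B, hB, hBW⟩ := hLz
    obtain ⟨C, hC, hCW⟩ := hLp (X.dim - i - 1)
    exact ⟨_, (hA.mul (hB.mul hC)).cast (by omega), by rw [hAW, hBW, hCW]⟩
  obtain ⟨y, hy, hyW⟩ := exists_of_rop (p := X.dim) (by simp) hcomp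
  refine ⟨y, hy, fun a ha => ?_⟩
  have e1 : W.corr (W.cl _ y) a = W.cl X D * (W.corr (W.cl _ z)
      (W.cl X D ^ (X.dim - i - 1) * a)) := by
    rw [hyW, Module.End.mul_apply, Module.End.mul_apply, LinearMap.pow_mulLeft]
    rfl
  have hxi : W.cl X D ^ (X.dim - i - 1) * a ∈ W.gr X (2 * X.dim - i) := by
    have h1 := W.mul_mem (gr_pow (W.cl_mem hD) (X.dim - i - 1)) ha
    rwa [show 2 * 1 * (X.dim - i - 1) + (i + 2) = 2 * X.dim - i by omega] at h1
  have hb : W.corr (W.cl _ z) (W.cl X D ^ (X.dim - i - 1) * a) ∈ W.gr X i := by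
    have hK : W.corr (W.cl (X.prod X) z) ∈ KOp W X X (-((X.dim - i : ℕ) : ℤ)) :=
      KOp.gen (p := i) (by omega) hz
    have h1 := KOp.isHom hK ((2 * X.dim - i : ℕ) : ℤ) _ (by rw [grZ_natCast]; exact hxi)
    rwa [show ((2 * X.dim - i : ℕ) : ℤ) + 2 * -((X.dim - i : ℕ) : ℤ) = ((i : ℕ) : ℤ) by omega,
      grZ_natCast] at h1
  refine ⟨⟨_, Or.inl ⟨by omega, by rwa [Nat.add_sub_cancel]⟩, e1⟩, ?_⟩
  have h2 := hinv.2 _ hxi
  rw [Pool.Agent.W537.lefPow, LinearMap.mulLeft_apply] at h2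
  have h2' : W.cl X D ^ (X.dim - i) * W.corr (W.cl _ z) (W.cl X D ^ (X.dim - i - 1) * a) =
      W.cl X D ^ (X.dim - i - 1) * a := h2
  rw [e1, mul_sub, ← mul_assoc, ← pow_succ, show X.dim - (i + 2) + 1 + 1 = X.dim - i by omega,
    h2', show X.dim - (i + 2) + 1 = X.dim - i - 1 by omega, sub_self]

/-- In the degrees `0` and `1` all classes are primitive. -/
theorem primitive_low {D : X.Cycles} (hD : X.IsCyc 1 D) {i : ℕ} (hi : i < 2) (hi' : i ≤ X.dim) :
    ∃ y, InducesPrimitiveProjection W X D i y := by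
  refine ⟨0, SmVar.IsCyc.zero _ _, fun a ha => ?_⟩
  have h0 : W.corr (W.cl (X.prod X) 0) a = 0 := by
    rw [map_zero, corr_zero, LinearMap.zero_apply]
  refine ⟨⟨0, Or.inr rfl, by rw [h0, mul_zero]⟩, ?_⟩
  rw [h0, sub_zero]
  have h1 := W.mul_mem (gr_pow (W.cl_mem hD) (X.dim - i + 1)) ha
  rw [W.gr_eq_bot X _ (by omega), Submodule.mem_bot] at h1
  exact h1

end Pool.Agent.U190.AN
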