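import Pool.Agent.U190.AN.Fact
import Pool.Agent.TH133.PW.Ev

/-!
# The parity projectors of varieties with generated odd (or even) cohomology
-/

open CategoryTheory AlgebraicGeometry Finset

universe u₁ v₁ u v

namespace Pool.Agent.U190.AN

open Pool.Agent.H914 Pool.Agent.H447 Pool.Agent.W537 Pool.Agent.Y106.One Pool.Agent.Y106.Gen
  Pool.Agent.R908 VarClass Obj WeilCohomology

variable {k : Type u} [Field k] {𝒱 : VarClass k} {ops : CycleOps 𝒱}
  {W : WeilCohomology.{u, v} ops} {X Y Z : 𝒱.Obj} {R : Set 𝒱.Obj}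

/-- The projector onto the sum of the `H^i(X)` with `i % 2 = s`. -/
noncomputable def pp (W : WeilCohomology.{u, v} ops) (X : 𝒱.Obj) (s : ℕ) :
    Module.End W.K (W.H X) :=
  scal (W.isInternal X) (fun i => if i % 2 = s then 1 else 0)

lemma pp_apply {s i : ℕ} {a : W.H X} (ha : a ∈ W.gr X i) :
    pp W X s a = if i % 2 = s then a else 0 := by
  rw [pp, scal_apply _ _ ha]
  split_ifs
  · rw [one_smul]
  · rw [zero_smul]

lemma pp_comp_kop {d : ℤ} {φ : W.H X →ₗ[W.K] W.H Y} (hφ : φ ∈ KOp W X Y d) (s : ℕ) :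
    φ ∘ₗ pp W X s = pp W Y s ∘ₗ φ := by
  apply gr_ext (W.isInternal X)
  intro l a ha
  rw [LinearMap.comp_apply, LinearMap.comp_apply, pp_apply ha]
  have h2 := (KOp.isHom hφ) l a (by rw [grZ_natCast]; exact ha)
  by_cases hneg : (l : ℤ) + 2 * d < 0
  · rw [grZ_of_neg hneg] at h2
    rw [(Submodule.mem_bot _).1 h2, map_zero]
    split_ifs
    · exact (Submodule.mem_bot _).1 h2
    · rw [map_zero]
  · obtain ⟨m, hm⟩ : ∃ m : ℕ, (m : ℤ) = (l : ℤ) + 2 * d := ⟨((l : ℤ) + 2 * d).toNat, by omega⟩
    rw [← hm, grZ_natCast] at h2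
    rw [pp_apply h2]
    by_cases hl : l % 2 = s
    · rw [if_pos hl, if_pos (by omega)]
    · rw [if_neg hl, if_neg (by omega), map_zero]

/-- **Non-degeneracy.** -/
theorem eq_zero_of_fac_par (hD : ∀ Y ∈ R, ∀ Y' ∈ R, HomEqNum W (Y.prod Y')) {s : ℕ}
    (hpar : ∀ Y ∈ R, pp W Y s ∈ KOp W Y Y 0)
    (hgen : ∀ i, i % 2 = s → IsGeneratedBy W R X i)
    {u : Module.End W.K (W.H X)} (hu : u ∈ KOp W X X 0)
    (h0 : ∀ x ∈ facOps W R X, LinearMap.trace W.K (W.H X)
      (pp W X s ∘ₗ (x ∘ₗ u)) = 0) (i : ℕ) (his : i % 2 = s) :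
    ∀ a ∈ W.gr X i, u a = 0 := by
  by_cases hbig : 2 * X.dim < i
  · intro a ha
    rw [W.gr_eq_bot X i (by omega), Submodule.mem_bot] at ha
    rw [ha, map_zero]
  obtain ⟨i', hii⟩ : ∃ i', i + i' = 2 * X.dim := ⟨2 * X.dim - i, by omega⟩
  refine gen_induction (hgen i his) (p := fun a => u a = 0) (map_zero _) ?_ ?_ ?_
  · intro a b ha hb
    rw [map_add, ha, hb, add_zero]
  · intro c a ha
    rw [map_smul, ha, smul_zero]
  · intro Y hY d φ hφ j a ha hjd
    have hφa : φ a ∈ W.gr X i := by
      have := KOp.isHom hφ j a (by rw [grZ_natCast]; exact ha)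
      rwa [hjd, grZ_natCast] at this
    have huφ : u (φ a) ∈ W.gr X i := by
      have := KOp.isHom hu i _ (by rw [grZ_natCast]; exact hφa)
      rwa [mul_zero, add_zero, grZ_natCast] at this
    apply nondeg_right
    intro y
    refine gr_induction (W.isInternal X) (p := fun y => W.tr X (y * (u (φ a))) = 0) ?_ ?_ y
    swap
    · intro b b' hb hb'
      rw [add_mul, map_add, hb, hb', add_zero]
    intro l y hy
    by_cases hl : l = i'
    swap
    · exact W.tr_eq_zero (W.mul_mem hy huφ) (by omega)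
    subst hl
    revert y
    refine gen_induction (hgen l (by omega)) (p := fun y => W.tr X (y * (u (φ a))) = 0)
      ?_ ?_ ?_ ?_
    · rw [zero_mul, map_zero]
    · intro b b' hb hb'
      rw [add_mul, map_add, hb, hb', add_zero]
    · intro c b hb
      rw [smul_mul_assoc, map_smul, hb, smul_zero]
    · intro Y' hY' d' φ' hφ' j' a' ha' hjd'
      obtain ⟨ψ', hψ', hadj⟩ := KOp.exists_adjoint hφ'
      rw [hadj]
      set η : W.H Y →ₗ[W.K] W.H Y' := ψ' ∘ₗ (u ∘ₗ (φ ∘ₗ pp W Y s)) with hη
      have hηK : η ∈ KOp W Y Y' (d + d' + Y'.dim - X.dim) :=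
        KOp.cast (KOp.comp hψ' (KOp.comp hu (KOp.comp hφ (hpar Y hY)))) (by ring)
      have hη0 : η = 0 := by
        apply kop_eq_zero (hD Y hY Y' hY') hηK
        intro β hβ
        have hpar' : par (W.isInternal Y') ∘ₗ η = ((-1 : W.K) ^ s) • η := by
          apply gr_ext (W.isInternal Y)
          intro m b hb
          rw [LinearMap.comp_apply, LinearMap.smul_apply]
          by_cases hm : m % 2 = s
          · have h4 := KOp.isHom hηK m b (by rw [grZ_natCast]; exact hb)
            by_cases hneg : (m : ℤ) + 2 * (d + d' + Y'.dim - X.dim) < 0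
            · rw [grZ_of_neg hneg] at h4
              rw [(Submodule.mem_bot _).1 h4, map_zero, smul_zero]
            · obtain ⟨t, ht⟩ : ∃ t : ℕ, (t : ℤ) = (m : ℤ) + 2 * (d + d' + Y'.dim - X.dim) :=
                ⟨((m : ℤ) + 2 * (d + d' + Y'.dim - X.dim)).toNat, by omega⟩
              rw [← ht, grZ_natCast] at h4
              rw [par, scal_apply _ _ h4]
              congr 1
              have h5 : (t % 2) = s := by omega
              rw [← Nat.mod_add_div t 2, pow_add, pow_mul, h5]
              norm_num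
          · have h4 : η b = 0 := by
              rw [hη]
              simp only [LinearMap.comp_apply]
              rw [pp_apply hb, if_neg hm, map_zero, map_zero, map_zero]
            rw [h4, map_zero, smul_zero]
        have hx : φ ∘ₗ (β ∘ₗ ψ') ∈ facOps W R X :=
          Submodule.subset_span ⟨Y, hY, d, φ, hφ, β ∘ₗ ψ', KOp.cast (KOp.comp hβ hψ') (by ring), rfl⟩
        have h5 := h0 _ hx
        rw [← LinearMap.comp_assoc, hpar', LinearMap.smul_comp, map_smul]
        have h6 : LinearMap.trace W.K (W.H Y') (η ∘ₗ β) = 0 := by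
          have e1 : η ∘ₗ β = ψ' ∘ₗ (u ∘ₗ ((φ ∘ₗ pp W Y s) ∘ₗ β)) := by
            rw [hη]
            simp only [LinearMap.comp_assoc]
          have e2 : (u ∘ₗ ((φ ∘ₗ pp W Y s) ∘ₗ β)) ∘ₗ ψ' =
              u * (pp W X s ∘ₗ (φ ∘ₗ (β ∘ₗ ψ'))) := by
            rw [pp_comp_kop hφ]
            simp only [LinearMap.comp_assoc, Module.End.mul_eq_comp]
          have e3 : (pp W X s ∘ₗ (φ ∘ₗ (β ∘ₗ ψ'))) * u =
              pp W X s ∘ₗ ((φ ∘ₗ (β ∘ₗ ψ')) ∘ₗ u) := by
            simp only [LinearMap.comp_assoc, Module.End.mul_eq_comp]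
          rw [e1, LinearMap.trace_comp_comm', e2, LinearMap.trace_mul_comm, e3]
          exact h5
        rw [h6, smul_zero]
      have h3 : ψ' (u (φ a)) = η a := by
        rw [hη]
        simp only [LinearMap.comp_apply]
        rw [pp_apply ha, if_pos (by omega)]
      rw [h3, hη0, LinearMap.zero_apply, mul_zero, map_zero]

/-- **The identity of the odd (even) cohomology factors through the members of `R`.** -/
theorem exists_fac_par (hD : ∀ Y ∈ R, ∀ Y' ∈ R, HomEqNum W (Y.prod Y')) {s : ℕ}
    (hpar : ∀ Y ∈ R, pp W Y s ∈ KOp W Y Y 0)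
    (hgen : ∀ i, i % 2 = s → IsGeneratedBy W R X i) :
    ∃ x ∈ facOps W R X, ∀ i, i % 2 = s → ∀ a ∈ W.gr X i, x a = a := by
  set P := pp W X s with hP
  have hPmem : ∀ (u : Module.End W.K (W.H X)),
      (∀ i, i % 2 = s → ∀ a ∈ W.gr X i, u a = 0) → u * P = 0 := by
    intro u h1
    apply gr_ext (W.isInternal X)
    intro i a ha
    rw [Module.End.mul_apply, hP, pp_apply ha, LinearMap.zero_apply]
    split_ifs with h
    · exact h1 i h a ha
    · exact map_zero _
  have hcomm : ∀ u ∈ KOp W X X 0, P * u = u * P := fun u hu => (pp_comp_kop hu s).symm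
  obtain ⟨x, hx, hx'⟩ := exists_rep_of_orth (trForm P 1) (facOps W R X)
    (KOp W X X 0) (LinearMap.trace W.K (W.H X) ∘ₗ LinearMap.mulLeft W.K P) (by
      intro u hu h0
      have h1 := eq_zero_of_fac_par hD hpar hgen hu (fun γ hγ => h0 γ hγ)
      have h2 : P * u = 0 := by
        rw [hcomm u hu]
        exact hPmem u h1
      rw [LinearMap.comp_apply, LinearMap.mulLeft_apply, h2, map_zero])
  refine ⟨x, hx, ?_⟩
  set w : Module.End W.K (W.H X) := 1 - x with hw
  have hwK : w ∈ KOp W X X 0 := Submodule.sub_mem _ (KOp.id X) (facOps_le hx)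
  have hwP : P * w = w * P := hcomm w hwK
  have key : ∀ i, i % 2 = s → ∀ a ∈ W.gr X i, w a = 0 := by
    apply eq_zero_of_fac_par hD hpar hgen hwK
    intro y hy
    have h1 := hx' y (facOps_le hy)
    rw [trForm_apply, LinearMap.comp_apply, LinearMap.mulLeft_apply] at h1
    have h1' : LinearMap.trace W.K (W.H X) (P * (x * y)) =
        LinearMap.trace W.K (W.H X) (P * y) := h1
    have h2 : P ∘ₗ (y ∘ₗ w) = (P * y) * w := rfl
    have h3 : w * (P * y) = P * y - P * (x * y) := by
      rw [← mul_assoc, ← hwP, hw, mul_assoc, sub_mul, one_mul, mul_sub]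
    rw [h2, LinearMap.trace_mul_comm, h3, map_sub, h1', sub_self]
  intro i hi a ha
  have h1 := key i hi a ha
  rw [hw, LinearMap.sub_apply, Module.End.one_apply, sub_eq_zero] at h1
  exact h1.symm

/-- **The parity projector is algebraic.** -/
theorem pp_mem (hD : ∀ Y ∈ R, ∀ Y' ∈ R, HomEqNum W (Y.prod Y')) {s : ℕ}
    (hpar : ∀ Y ∈ R, pp W Y s ∈ KOp W Y Y 0)
    (hgen : ∀ i, i % 2 = s → IsGeneratedBy W R X i) : pp W X s ∈ KOp W X X 0 := by
  obtain ⟨x, hx, hx1⟩ := exists_fac_par hD hpar hgen
  have key : ∀ x ∈ facOps W R X, x * pp W X s ∈ KOp W X X 0 := by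
    intro x hx
    rw [facOps] at hx
    induction hx using Submodule.span_induction with
    | mem x hx =>
      obtain ⟨Z, hZ, d, φ, hφ, ψ, hψ, rfl⟩ := hx
      have e1 : (φ ∘ₗ ψ) * pp W X s = φ ∘ₗ (pp W Z s ∘ₗ ψ) := by
        rw [← pp_comp_kop hψ]
        rfl
      rw [e1]
      exact KOp.cast (KOp.comp hφ (KOp.comp (hpar Z hZ) hψ)) (by ring)
    | zero => rw [zero_mul]; exact Submodule.zero_mem _
    | add x y _ _ hx hy => rw [add_mul]; exact Submodule.add_mem _ hx hy
    | smul a x _ hx => rw [smul_mul_assoc]; exact Submodule.smul_mem _ _ hx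
  have h1 : x * pp W X s = pp W X s := by
    apply gr_ext (W.isInternal X)
    intro i a ha
    rw [Module.End.mul_apply, pp_apply ha]
    split_ifs with h
    · exact hx1 i h a ha
    · exact map_zero _
  rw [← h1]
  exact key x hx

lemma pp_zero_add_one : pp W X 0 + pp W X 1 = 1 := by
  apply gr_ext (W.isInternal X)
  intro i a ha
  rw [LinearMap.add_apply, pp_apply ha, pp_apply ha, Module.End.one_apply]
  rcases Nat.mod_two_eq_zero_or_one i with h | h
  · rw [if_pos h, if_neg (by omega), add_zero]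
  · rw [if_neg (by omega), if_pos h, zero_add]

lemma pp_zero_iff : pp W X 0 ∈ KOp W X X 0 ↔ pp W X 1 ∈ KOp W X X 0 := by
  have h1 : (1 : Module.End W.K (W.H X)) ∈ KOp W X X 0 := KOp.id X
  constructor
  · intro h
    have h2 : pp W X 1 = 1 - pp W X 0 := by rw [← pp_zero_add_one (X := X)]; abel
    rw [h2]
    exact Submodule.sub_mem _ h1 h
  · intro h
    have h2 : pp W X 0 = 1 - pp W X 1 := by rw [← pp_zero_add_one (X := X)]; abel
    rw [h2]
    exact Submodule.sub_mem _ h1 h

lemma isEvenProj_pp : IsEvenProj (W.gr X) (pp W X 0) := by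
  intro j a ha
  rw [pp_apply ha]
  by_cases h : Even j
  · rw [if_pos h, if_pos (Nat.even_iff.1 h)]
  · rw [if_neg h, if_neg (fun h' => h (Nat.even_iff.2 h'))]

/-- The sign conjecture and the projector `pp`. -/
theorem signStd_iff : SignStd W X ↔ pp W X 0 ∈ KOp W X X 0 := by
  constructor
  · rintro ⟨z, hz, hz'⟩
    have h1 : pp W X 0 = W.corr (W.cl (X.prod X) z) := by
      apply gr_ext (W.isInternal X)
      intro j a ha
      rw [isEvenProj_pp j a ha, hz' j a ha]
    rw [h1]
    exact KOp.gen (p := X.dim) (by ring) hz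
  · intro h
    apply Pool.Agent.TH133.PW.signStd_of_span
    refine ⟨pp W X 0, ?_, isEvenProj_pp⟩
    rw [Pool.Agent.TH133.PW.span_cycleOperators0]
    exact h

lemma signStd_iff' {s : ℕ} (hs : s < 2) : SignStd W X ↔ pp W X s ∈ KOp W X X 0 := by
  interval_cases s
  · exact signStd_iff
  · exact signStd_iff.trans pp_zero_iff

/-- The parity projectors of a product. -/
theorem pp_prod (hX : SignStd W X) (hY : SignStd W Y) : SignStd W (X.prod Y) := by
  rw [signStd_iff]
  have h1 : pp W (X.prod Y) 0 =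
      extHom W (pp W X 0) (pp W Y 0) + extHom W (pp W X 1) (pp W Y 1) := by
    apply ext_kunneth_lin
    intro a b
    rw [LinearMap.add_apply, extHom_tmul, extHom_tmul]
    refine gr_induction (W.isInternal X) (p := fun a =>
      pp W (X.prod Y) 0 (W.map (fst X Y) a * W.map (snd X Y) b) =
        W.map (fst X Y) (pp W X 0 a) * W.map (snd X Y) (pp W Y 0 b) +
          W.map (fst X Y) (pp W X 1 a) * W.map (snd X Y) (pp W Y 1 b)) ?_ ?_ a
    swap
    · intro a a' ha ha'
      rw [map_add, add_mul, map_add, ha, ha', map_add, map_add, map_add, map_add, add_mul, add_mul]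
      abel
    intro s a ha
    refine gr_induction (W.isInternal Y) (p := fun b =>
      pp W (X.prod Y) 0 (W.map (fst X Y) a * W.map (snd X Y) b) =
        W.map (fst X Y) (pp W X 0 a) * W.map (snd X Y) (pp W Y 0 b) +
          W.map (fst X Y) (pp W X 1 a) * W.map (snd X Y) (pp W Y 1 b)) ?_ ?_ b
    swap
    · intro b b' hb hb'
      rw [map_add, mul_add, map_add, hb, hb', map_add, map_add, map_add, map_add, mul_add, mul_add]
      abel
    intro t b hb
    have h2 : W.map (fst X Y) a * W.map (snd X Y) b ∈ W.gr (X.prod Y) (s + t) :=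
      W.mul_mem (W.map_mem _ ha) (W.map_mem _ hb)
    rw [pp_apply h2, pp_apply ha, pp_apply ha, pp_apply hb, pp_apply hb]
    rcases Nat.mod_two_eq_zero_or_one s with h | h <;>
      rcases Nat.mod_two_eq_zero_or_one t with h' | h'
    · rw [if_pos (by omega), if_pos h, if_pos h', if_neg (by omega), map_zero, zero_mul, add_zero]
    · rw [if_neg (by omega), if_pos h, if_neg (by omega), if_neg (by omega), map_zero, map_zero,
        mul_zero, zero_mul, add_zero]
    · rw [if_neg (by omega), if_neg (by omega), if_pos h', if_pos h, if_neg (by omega), map_zero,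
        map_zero, mul_zero, zero_mul, add_zero]
    · rw [if_pos (by omega), if_neg (by omega), if_pos h, if_pos h', map_zero, zero_mul, zero_add]
  rw [h1]
  have hX1 := pp_zero_iff.1 (signStd_iff.1 hX)
  have hY1 := pp_zero_iff.1 (signStd_iff.1 hY)
  exact Submodule.add_mem _ (KOp.cast (KOp.extHom (signStd_iff.1 hX) (signStd_iff.1 hY))
    (add_zero 0)) (KOp.cast (KOp.extHom hX1 hY1) (add_zero 0))

theorem signStd_products {Q : Set 𝒱.Obj} (h : ∀ X ∈ Q, SignStd W X) (hZ : IsProductOf Q Z) :
    SignStd W Z := by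
  induction hZ with
  | base hX => exact h _ hX
  | prod _ _ h1 h2 => exact pp_prod h1 h2

/-- The sign conjecture from the Künneth projectors. -/
theorem signStd_of_kunneth (h : ∀ i, proj (W.isInternal X) i ∈ KOp W X X 0) : SignStd W X := by
  rw [signStd_iff]
  have h1 : ∑ i ∈ (Finset.range (2 * X.dim + 1)).filter (fun i => i % 2 = 0),
      proj (W.isInternal X) i ∈ KOp W X X 0 := Submodule.sum_mem _ (fun i _ => h i)
  have h2 : pp W X 0 = ∑ i ∈ (Finset.range (2 * X.dim + 1)).filter (fun i => i % 2 = 0),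
      proj (W.isInternal X) i := by
    apply gr_ext (W.isInternal X)
    intro j a ha
    rw [pp_apply ha, LinearMap.sum_apply]
    by_cases hj : j ≤ 2 * X.dim
    · split_ifs with h0
      · rw [Finset.sum_eq_single j]
        · rw [proj_same _ ha]
        · intro i _ hi
          rw [proj_ne _ ha (Ne.symm hi)]
        · intro hn
          exact (hn (Finset.mem_filter.2 ⟨Finset.mem_range.2 (by omega), h0⟩)).elim
      · refine (Finset.sum_eq_zero (fun i hi => ?_)).symm
        rw [proj_ne _ ha]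
        rintro rfl
        exact h0 (Finset.mem_filter.1 hi).2
    · rw [W.gr_eq_bot X j (by omega), Submodule.mem_bot] at ha
      rw [ha]
      simp
  rw [h2]
  exact h1

/-- The cohomology above the middle degree is generated if the cohomology below is, by the hard
Lefschetz theorem. -/
theorem isGeneratedBy_high {D : X.Cycles} (hD : X.IsCyc 1 D) (hHL : HardLefschetz W X D) {i : ℕ}
    (hi : i ≤ X.dim) (hgen : IsGeneratedBy W R X i) : IsGeneratedBy W R X (2 * X.dim - i) := by
  intro a ha
  obtain ⟨b, hb, hb'⟩ := (hHL i hi).2 a ha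
  rw [← hb']
  have key : ∀ b ∈ Submodule.span W.K {b | ∃ Y ∈ R, ∃ q : ℤ, ∃ γ ∈ spanCycles W (Y.prod X) q,
      ∃ a, b = W.corr γ a}, (LinearMap.mulLeft W.K (W.cl X D) ^ (X.dim - i)) b ∈
        Submodule.span W.K {b | ∃ Y ∈ R, ∃ q : ℤ, ∃ γ ∈ spanCycles W (Y.prod X) q,
          ∃ a, b = W.corr γ a} := by
    intro b hb
    induction hb using Submodule.span_induction with
    | mem b hb =>
      obtain ⟨Y, hY, q, γ, hγ, a, rfl⟩ := hb
      have h1 : W.corr γ ∈ KOp W Y X (q - Y.dim) :=
        mem_KOp_iff.2 ⟨γ, by rwa [show (Y.dim : ℤ) + (q - Y.dim) = q by ring], rfl⟩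
      have h2 := KOp.comp (lefP_mem (W := W) hD (X.dim - i)) h1
      obtain ⟨γ', hγ', he⟩ := mem_KOp_iff.1 h2
      exact Submodule.subset_span ⟨Y, hY, _, γ', hγ', a, by rw [he]; rfl⟩
    | zero => rw [map_zero]; exact Submodule.zero_mem _
    | add x y _ _ hx hy => rw [map_add]; exact Submodule.add_mem _ hx hy
    | smul c x _ hx => rw [map_smul]; exact Submodule.smul_mem _ _ hx
  exact key b (hgen hb)

/-- **The Künneth projector of a generated degree is algebraic.** -/
theorem proj_mem_of_generated (hS : IsStandardK W R) {i i' : ℕ} (hii : i + i' = 2 * X.dim)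
    (hgen : IsGeneratedBy W R X i) (hgen' : IsGeneratedBy W R X i') :
    proj (W.isInternal X) i ∈ KOp W X X 0 := by
  obtain ⟨x, hx, hx1⟩ := exists_fac hS hii hgen hgen'
  have key : ∀ x ∈ facOps W R X, x * proj (W.isInternal X) i ∈ KOp W X X 0 := by
    intro x hx
    rw [facOps] at hx
    induction hx using Submodule.span_induction with
    | mem x hx =>
      obtain ⟨Z, hZ, d, φ, hφ, ψ, hψ, rfl⟩ := hx
      by_cases hneg : (i : ℤ) + 2 * (-d) < 0
      · have e0 : (φ ∘ₗ ψ) * proj (W.isInternal X) i = 0 := by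
          apply gr_ext (W.isInternal X)
          intro m a ha
          rw [Module.End.mul_apply, LinearMap.zero_apply]
          by_cases hm : m = i
          · subst hm
            rw [proj_same _ ha, LinearMap.comp_apply]
            have h2 := KOp.isHom hψ m a (by rw [grZ_natCast]; exact ha)
            rw [grZ_of_neg hneg] at h2
            rw [(Submodule.mem_bot _).1 h2, map_zero]
          · rw [proj_ne _ ha hm, map_zero]
        rw [e0]
        exact Submodule.zero_mem _
      · obtain ⟨m, hm⟩ : ∃ m : ℕ, (m : ℤ) = (i : ℤ) + 2 * (-d) :=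
          ⟨((i : ℤ) + 2 * (-d)).toNat, by omega⟩
        have e1 : (φ ∘ₗ ψ) * proj (W.isInternal X) i =
            φ ∘ₗ (proj (W.isInternal Z) m ∘ₗ ψ) := by
          rw [← proj_comp_kop hψ hm.symm]
          rfl
        rw [e1]
        exact KOp.cast (KOp.comp hφ (KOp.comp (hS.kunneth Z hZ m) hψ)) (by ring)
    | zero => rw [zero_mul]; exact Submodule.zero_mem _
    | add x y _ _ hx hy => rw [add_mul]; exact Submodule.add_mem _ hx hy
    | smul a x _ hx => rw [smul_mul_assoc]; exact Submodule.smul_mem _ _ hx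
  have h1 : x * proj (W.isInternal X) i = proj (W.isInternal X) i := by
    apply gr_ext (W.isInternal X)
    intro j a ha
    rw [Module.End.mul_apply]
    by_cases h : j = i
    · subst h
      rw [proj_same _ ha]
      exact hx1 a ha
    · rw [proj_ne _ ha h, map_zero]
  rw [← h1]
  exact key x hx

end Pool.Agent.U190.AN
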